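import Mathlib
import Pool.Agent.KS6_49.L8.Helper941.Dim.Resp
import Pool.Agent.KS6_49.L8.Helper941.Dim.Iso

set_option autoImplicit false

namespace Pool.Agent.Helper941.Hyp

open Encodable Denumerable Nat.Partrec Pool.Agent.Helper941 Pool.Agent.Helper941.IsoProb
open Pool.Agent.Helper941.Zeta Pool.Agent.Helper941.Dim

variable {d : Dat} {T : ℕ → Prop} {pr g : ℕ → ℕ} {e N : ℕ} {B : Str} {G : ℕ → ℕ}

/-- an isomorphism on codes for the reduct without the relation `0` -/
structure PIso (pa : ℕ → ℕ) (B : Str) (G : ℕ → ℕ) : Prop where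
  rel : ∀ i p q, i ≠ 0 → Valid pa p → Valid pa q → (Rel pa false i p q ↔ B i (G p) (G q))
  inj : ∀ p q, Valid pa p → Valid pa q → G p = G q → p = q
  surj : ∀ z, ∃ p, Valid pa p ∧ G p = z

/-- the second coordinate of the code of an element -/
noncomputable def crd {pa : ℕ → ℕ} (h : PIso pa B G) (y : ℕ) : ℕ :=
  (h.surj y).choose.unpair.2

theorem crd_spec {pa : ℕ → ℕ} (h : PIso pa B G) {v y : ℕ} (hy : B (Nat.pair 1 v) y y) :
    Valid pa (Nat.pair v (crd h y)) ∧ G (Nat.pair v (crd h y)) = y := by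
  obtain ⟨h1, h2⟩ := (h.surj y).choose_spec
  have h3 := (h.rel (Nat.pair 1 v) _ _ (pair_ne_zero (by omega)) h1 h1).2 (by rw [h2]; exact hy)
  have h4 := (rel_one.1 h3).2
  have h5 : Nat.pair v (crd h y) = (h.surj y).choose := by
    conv_rhs => rw [← Nat.pair_unpair (h.surj y).choose]
    rw [h4]
    rfl
  rw [h5]
  exact ⟨h1, h2⟩

theorem crd_G {pa : ℕ → ℕ} (h : PIso pa B G) {p : ℕ} (hp : Valid pa p) :
    crd h (G p) = p.unpair.2 := by
  obtain ⟨h1, h2⟩ := (h.surj (G p)).choose_spec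
  have := h.inj _ _ h1 hp h2
  show (h.surj (G p)).choose.unpair.2 = _
  rw [this]

theorem crd_two {pa : ℕ → ℕ} (h : PIso pa B G) {u x y : ℕ}
    (hxy : B (Nat.pair 2 u) x y) : crd h y = crd h x ^^^ 2 ^ u ∧ B (Nat.pair 1 (pa u)) y y := by
  obtain ⟨p, hp, rfl⟩ := h.surj x
  obtain ⟨q, hq, rfl⟩ := h.surj y
  have h1 := rel_two.1 ((h.rel _ _ _ (pair_ne_zero (by omega)) hp hq).2 hxy)
  rw [crd_G h hp, crd_G h hq]
  exact ⟨h1.2.2.2, (h.rel _ _ _ (pair_ne_zero (by omega)) hq hq).1 (rel_one.2 ⟨rfl, h1.2.2.1⟩)⟩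

noncomputable def tt {d : Dat} (h : PIso d.pa B G) (e s v : ℕ) : ℕ :=
  crd h (yv (d.C s e - 1) v)

section
variable (hS : Spec T pr d) (hT : TH T pr) (hG : PIso d.pa B G)
  (hB : ∀ i x y, B i x y ↔ (Code.eval (ofNat Code e) (Nat.pair i (Nat.pair x y))).Dom)

include hB in
theorem fa_sound {s i x y : ℕ} (h : Fa e s i x y) : B i x y :=
  (hB i x y).2 ((haltsIn_iff _ _).2 ⟨s, h⟩)

include hB in
theorem fa_ev {i x y : ℕ} (h : B i x y) : ∃ S, ∀ s, S ≤ s → Fa e s i x y := by
  obtain ⟨S, hS⟩ := (haltsIn_iff _ _).1 ((hB i x y).1 h)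
  exact ⟨S, fun s hs => haltsIn_mono _ _ hs hS⟩

include hB in
/-- the change of coordinates between consecutive responses -/
theorem steps {s s' : ℕ} (hs : s' < s) (hp : prevr d s' s e)
    (hC : Cert d T s e (d.C s e - 1)) (hC' : Cert d T s' e (d.C s' e - 1)) {v : ℕ}
    (hv : v < MM d e s') (w : ℕ) : (tt hG e s v).testBit w = ((tt hG e s' v).testBit w ^^
      (decide (w < MM d e s ∧ ¬ Zc (d.C s e - 1) v (w + 1) = Zc (d.C s e - 1) v w))) := by
  obtain ⟨h1, h2⟩ := hC.2.2 s' hs hp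
  obtain ⟨h3, h4⟩ := h2 v hv
  have h5 := fa_sound hB (hC'.2.1.1 v hv)
  have key : ∀ u, u ≤ MM d e s →
      (crd hG (Zc (d.C s e - 1) v u)).testBit w = ((tt hG e s' v).testBit w ^^
      (decide (w < u ∧ ¬ Zc (d.C s e - 1) v (w + 1) = Zc (d.C s e - 1) v w))) := by
    intro u
    induction u with
    | zero =>
      intro _
      rw [h3]
      simp [tt]
    | succ u ih =>
      intro hu
      have h6 := ih (by omega)
      rcases h4 u hu with h7 | ⟨h7, h8, h9⟩
      · rw [h7, h6]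
        by_cases h10 : w = u
        · subst h10
          simp [h7]
        · have : w < u + 1 ↔ w < u := by omega
          simp only [this]
      · have h10 := crd_two hG (fa_sound hB h9)
        rw [h10.1, Nat.testBit_xor, Nat.testBit_two_pow, h6]
        by_cases h11 : u = w
        · subst h11
          have h12 : ¬ Zc (d.C s e - 1) v (u + 1) = Zc (d.C s e - 1) v u := by
            intro hc
            have h13 := h10.1
            rw [hc] at h13
            have h14 : (2 : ℕ) ^ u = 0 := by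
              have h15 : crd hG (Zc (d.C s e - 1) v u) ^^^ crd hG (Zc (d.C s e - 1) v u) =
                crd hG (Zc (d.C s e - 1) v u) ^^^
                  (crd hG (Zc (d.C s e - 1) v u) ^^^ 2 ^ u) := by rw [← h13]
              rw [Nat.xor_self, ← Nat.xor_assoc, Nat.xor_self, Nat.zero_xor] at h15
              exact h15.symm
            have := Nat.two_pow_pos u
            omega
          simp [h12]
        · have : w < u + 1 ↔ w < u := by omega
          simp [h11, this]
  exact key _ (le_refl _)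

include hS hT hG hB in
/-- there are infinitely many responses -/
theorem inf_resp (hg : TP d g) (n : ℕ) : ∃ s, n ≤ s ∧ RR d g e N s := by
  classical
  by_contra hc
  push Not at hc
  have hno : ∀ s, n + N ≤ s → vis d g s e → d.C s e = 0 := by
    intro s hs hv
    by_contra h
    exact hc s (by omega) ⟨by omega, hv, (hS.C_ne h).2.1⟩
  -- the last response, if any
  let P : ℕ → Prop := fun s' => vis d g s' e ∧ ¬ d.C s' e = 0
  obtain ⟨s0, M', y0, hs0, hM0, hy0⟩ : ∃ s0 M' : ℕ, ∃ y0 : ℕ → ℕ,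
      (∀ s s', n + N ≤ s → s' < s → vis d g s e → prevr d s' s e → s' = s0 ∧
        (d.C s' e - 1).unpair.1 = M' ∧ ∀ v < M', yv (d.C s' e - 1) v = y0 v) ∧
      (∀ v < M', B (Nat.pair 1 v) (y0 v) (y0 v)) ∧ M' ≤ s0 := by
    by_cases hP : ∃ s', P s'
    · obtain ⟨s1, hs1⟩ := hP
      let s0 := Nat.findGreatest P (n + N)
      have hlt : ∀ s', P s' → s' ≤ n + N := fun s' h => by
        by_contra hc'
        exact h.2 (hno s' (by omega) h.1)
      have h1 : P s0 := Nat.findGreatest_spec (hlt s1 hs1) hs1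
      have h2 := (hS.C_ne h1.2).1
      refine ⟨s0, (d.C s0 e - 1).unpair.1, yv (d.C s0 e - 1), ?_, fun v hv =>
        fa_sound hB (h2.2.1.1 v hv), h2.1.1⟩
      intro s s' hs hs' hv hp
      have h3 : P s' := ⟨hv.of_agr hp.2.1.1, hp.1⟩
      have h4 : s' ≤ s0 := Nat.le_findGreatest (hlt _ h3) h3
      have h5 : s' = s0 := by
        by_contra h
        have h6 : s0 < s := by
          by_contra h7
          have h8 := hlt s0 h1
          have h9 : s0 = s := by omega
          exact h1.2 (hno s0 (by omega) h1.1)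
        exact h1.2 (hp.2.2 s0 h6 (by omega) (h1.1.agr hv))
      subst h5
      exact ⟨rfl, rfl, fun v _ => rfl⟩
    · refine ⟨0, 0, fun _ => 0, fun s s' _ _ hv hp => (hP ⟨s', hv.of_agr hp.2.1.1, hp.1⟩).elim,
        fun v hv => by omega, le_refl _⟩
  -- the persistent nodes
  have hpers : ∀ j, ∃ a, T j → Pers d g a j := fun j => by
    by_cases h : T j
    · obtain ⟨a, ha⟩ := pers_exists hS hg j h
      exact ⟨a, fun _ => ha⟩
    · exact ⟨0, fun h' => (h h').elim⟩
  choose a ha using hpers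
  -- the coordinates
  let Y : ℕ → ℕ := fun v => if v < M' then crd hG (y0 v) else 0
  have hYv : ∀ v, Valid d.pa (Nat.pair v (Y v)) := by
    intro v
    by_cases h : v < M'
    · have : Y v = crd hG (y0 v) := if_pos h
      rw [this]
      exact (crd_spec hG (hM0 v h)).1
    · have : Y v = 0 := if_neg h
      rw [this]
      exact valid_base _ v
  have hYG : ∀ v < M', G (Nat.pair v (Y v)) = y0 v := by
    intro v h
    have : Y v = crd hG (y0 v) := if_pos h
    rw [this]
    exact (crd_spec hG (hM0 v h)).2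
  let M : ℕ := s0 + 1 + (∑ j ∈ Finset.range (e + 1), (a j + 1)) + ∑ v ∈ Finset.range M', Y v
  have hMs : s0 < M := by show s0 < s0 + 1 + _ + _; omega
  have hMa : ∀ j < e + 1, a j < M := by
    intro j hj
    have h1 : a j + 1 ≤ ∑ j ∈ Finset.range (e + 1), (a j + 1) :=
      Finset.single_le_sum (f := fun j => a j + 1) (fun _ _ => Nat.zero_le _)
        (Finset.mem_range.2 hj)
    show a j < s0 + 1 + _ + _
    omega
  have hMY : ∀ v u, (Y v).testBit u = true → u < M := by
    intro v u hu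
    have h1 := testBit_lt hu
    by_cases h : v < M'
    · have h2 : Y v ≤ ∑ v ∈ Finset.range M', Y v :=
        Finset.single_le_sum (f := Y) (fun _ _ => Nat.zero_le _) (Finset.mem_range.2 h)
      show u < s0 + 1 + _ + _
      omega
    · have : Y v = 0 := if_neg h
      rw [this] at h1
      omega
  have hclr : ∀ v u, Valid d.pa (Nat.pair v (clr (Y v) u)) := by
    intro v u w hw
    rw [Nat.unpair_pair] at hw ⊢
    rw [clr_bit] at hw
    simp only [Bool.and_eq_true] at hw
    have := hYv v w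
    rw [Nat.unpair_pair] at this
    exact this hw.2
  let Z : ℕ → ℕ → ℕ := fun v u => G (Nat.pair v (clr (Y v) u))
  have hZM : ∀ v, Z v M = G (Nat.pair v 0) := by
    intro v
    show G (Nat.pair v (clr (Y v) M)) = _
    rw [clr_large (hMY v)]
  have hZ0 : ∀ v < M', Z v 0 = y0 v := by
    intro v hv
    show G (Nat.pair v (clr (Y v) 0)) = _
    rw [clr_zero, hYG v hv]
  have hZs : ∀ v u, (¬ (Y v).testBit u = true → Z v (u + 1) = Z v u) ∧
      ((Y v).testBit u = true → 1 ≤ u ∧ d.pa u = v ∧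
        B (Nat.pair 2 u) (Z v u) (Z v (u + 1))) := by
    intro v u
    constructor
    · intro h
      show G (Nat.pair v (clr (Y v) (u + 1))) = _
      rw [clr_succ, if_neg h]
    · intro h
      have h1 := hYv v u
      rw [Nat.unpair_pair] at h1
      obtain ⟨h2, h3⟩ := h1 h
      refine ⟨h2, h3, (hG.rel _ _ _ (pair_ne_zero (by omega)) (hclr v u) (hclr v (u + 1))).1 (rel_two.2 ?_)⟩
      rw [Nat.unpair_pair, Nat.unpair_pair, clr_succ, if_pos h]
      exact ⟨h2, h3.symm, h3.symm, rfl⟩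
  obtain ⟨w, hw⟩ := exists_ent ((M + 1) ^ 2) fun i => Z i.unpair.1 i.unpair.2
  have hcZ : ∀ v < M, ∀ u ≤ M, Zc (Nat.pair M w) v u = Z v u := by
    intro v hv u hu
    unfold Zc
    rw [Nat.unpair_pair, hw _ ?_, Nat.unpair_pair]
    refine lt_of_lt_of_le (Nat.pair_lt_max_add_one_sq v u) ?_
    exact Nat.pow_le_pow_left (by omega) 2
  have hcy : ∀ v < M, yv (Nat.pair M w) v = G (Nat.pair v 0) := by
    intro v hv
    unfold yv
    rw [Nat.unpair_pair, hcZ v hv M (le_refl _), hZM]
  -- all facts are enumerated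
  obtain ⟨S1, hS1⟩ := ev_ball (P := fun v s => Fa e s (Nat.pair 1 v) (G (Nat.pair v 0))
      (G (Nat.pair v 0))) (M := M) (fun v _ => fa_ev hB
        ((hG.rel _ _ _ (pair_ne_zero (by omega)) (valid_base _ v) (valid_base _ v)).1
          (rel_one.2 ⟨rfl, by rw [Nat.unpair_pair]⟩)))
  obtain ⟨S2, hS2⟩ := ev_ball (P := fun u s => 1 ≤ u → Fa e s (Nat.pair 3 u)
      (G (Nat.pair (d.pa u) 0)) (G (Nat.pair u 0))) (M := M) (fun u _ => by
        by_cases h : 1 ≤ u
        · obtain ⟨S, hS⟩ := fa_ev hB ((hG.rel (Nat.pair 3 u) _ _ (pair_ne_zero (by omega)) (valid_base _ (d.pa u))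
            (valid_base _ u)).1 (rel_three.2 (by
              rw [Nat.unpair_pair, Nat.unpair_pair]
              exact ⟨h, rfl, rfl, by rw [Nat.zero_testBit]; rfl⟩)))
          exact ⟨S, fun s hs _ => hS s hs⟩
        · exact ⟨0, fun s _ h' => (h h').elim⟩)
  obtain ⟨S3, hS3⟩ := ev_ball (P := fun v s => ∀ u < M, (Y v).testBit u = true →
      Fa e s (Nat.pair 2 u) (Z v u) (Z v (u + 1))) (M := M) (fun v _ => by
        refine ev_ball (P := fun u s => (Y v).testBit u = true →
          Fa e s (Nat.pair 2 u) (Z v u) (Z v (u + 1))) (fun u _ => ?_)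
        by_cases h : (Y v).testBit u = true
        · obtain ⟨S, hS⟩ := fa_ev hB ((hZs v u).2 h).2.2
          exact ⟨S, fun s hs _ => hS s hs⟩
        · exact ⟨0, fun s _ h' => (h h').elim⟩)
  obtain ⟨s, hs, hv⟩ := hg.inf (e + 1) (n + N + S1 + S2 + S3 + M + e + Nat.pair M w + 1)
  have hve : vis d g s e := hv.mono (by omega)
  have hcert : Cert d T s e (Nat.pair M w) := by
    refine ⟨⟨?_, fun j hj hTj => ?_⟩, ⟨fun v hv' => ?_, fun u hu h1 => ?_⟩, ?_⟩
    · rw [Nat.unpair_pair]; show M ≤ s; omega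
    · rw [Nat.unpair_pair]
      exact ⟨a j, hMa j hj, (ha j hTj).on (hve.mono (by omega))⟩
    · rw [Nat.unpair_pair] at hv'
      rw [hcy v hv']
      exact hS1 s (by omega) v hv'
    · rw [Nat.unpair_pair] at hu
      have := hS.pa_lt hT h1
      have hu' : u < M := hu
      rw [hcy u hu, hcy (d.pa u) (by omega)]
      exact hS2 s (by omega) u hu h1
    · intro s' hs' hp
      obtain ⟨h1, h2, h3⟩ := hs0 s s' (by omega) hs' hve hp
      rw [Nat.unpair_pair, h2]
      subst h1
      refine ⟨hMs, fun v hv' => ?_⟩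
      have hvM : v < M := by omega
      rw [hcZ v hvM 0 (Nat.zero_le _), h3 v hv', hZ0 v hv']
      refine ⟨rfl, fun u hu => ?_⟩
      have hu' : u < M := hu
      rw [hcZ v hvM u (by omega), hcZ v hvM (u + 1) (by omega)]
      by_cases h4 : (Y v).testBit u = true
      · obtain ⟨h5, h6, _⟩ := (hZs v u).2 h4
        exact Or.inr ⟨h5, h6, hS3 s (by omega) v hvM u hu' h4⟩
      · exact Or.inl ((hZs v u).1 h4)
  obtain ⟨c, _, _, h1, _⟩ := hS.yes s e (by omega) ⟨Nat.pair M w, by omega, hcert⟩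
  have := hno s (by omega) hve
  omega

include hS hT hG hB in
theorem exists_rsp (hg : TP d g) : ∃ N, Rsp d g e N (RR d g e N) (MM d e) (tt hG e) := by
  obtain ⟨N0, hN0⟩ := hg.stable e
  have hpers : ∀ j, ∃ a, (∃ a', Pers d g a' j) → Pers d g a j := fun j => by
    by_cases h : ∃ a', Pers d g a' j
    · obtain ⟨a, ha⟩ := h
      exact ⟨a, fun _ => ha⟩
    · exact ⟨0, fun h' => (h h').elim⟩
  choose a ha using hpers
  set N := N0 + 1 + ∑ j ∈ Finset.range (e + 1), a j with hN
  have hstab : ∀ s, N ≤ s → ∀ i < e, vis d g s i → g i ≤ d.O s i :=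
    fun s hs => hN0 s (by omega)
  have hUN : ∀ v, UU d g e v → v < N := by
    rintro v ⟨j, hj, hv⟩
    have h1 := hv.uniq hS hT hg (ha j ⟨v, hv⟩)
    have h2 : a j ≤ ∑ j ∈ Finset.range (e + 1), a j :=
      Finset.single_le_sum (f := a) (fun _ _ => Nat.zero_le _) (Finset.mem_range.2 (by omega))
    omega
  have hresp : ∀ s, RR d g e N s → Cert d T s e (d.C s e - 1) ∧
      ((Ev d s e (d.C s e - 1) ∧ d.O s e = 0) ∨ (¬ Ev d s e (d.C s e - 1) ∧ d.O s e = 1)) :=
    fun s hs => by
      have := hS.C_ne (hS.O_ne hs.2.2)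
      exact ⟨this.1, this.2.2⟩
  have hltM : ∀ s' s, pv (RR d g e N) s' s → s' < MM d e s := fun s' s hp =>
    ((hresp s hp.2.1).1.2.2 s' hp.2.2.1 (prevr_of hS hstab hp)).1
  have hsteps : ∀ s' s, pv (RR d g e N) s' s → ∀ v < MM d e s', ∀ w,
      (tt hG e s v).testBit w ≠ (tt hG e s' v).testBit w ↔
        (w < MM d e s ∧ ¬ Zc (d.C s e - 1) v (w + 1) = Zc (d.C s e - 1) v w) := by
    intro s' s hp v hv w
    rw [steps hG hB hp.2.2.1 (prevr_of hS hstab hp) (hresp s hp.2.1).1 (hresp s' hp.1).1 hv w]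
    by_cases h : w < MM d e s ∧ ¬ Zc (d.C s e - 1) v (w + 1) = Zc (d.C s e - 1) v w
    · rw [decide_eq_true h]
      cases (tt hG e s' v).testBit w <;> simp [h]
    · rw [decide_eq_false h]
      cases (tt hG e s' v).testBit w <;> simp [h]
  refine ⟨N, hstab, fun s => Iff.rfl, inf_resp hS hT hG hB hg, fun s hs => (hresp s hs).1.1.1,
    hltM, ?_, ?_, ?_, ?_, ?_, ?_⟩
  · rintro s v hs hU
    obtain ⟨j, hj, hv⟩ := hU
    have hTj : T j := by
      by_cases h0 : j = 0
      · rw [h0]; exact hT.zero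
      · have h1 := hv.pa hS hT (by omega)
        exact (hS.child hT h1.1 hv.1).2.1
    obtain ⟨v', h1, h2⟩ := (hresp s hs).1.1.2 j (by omega) hTj
    have h3 := hUN v ⟨j, hj, hv⟩
    have h4 := (hresp s hs).1.1.1
    have h5 : MM d e s ≤ s := h4
    have h6 : v' < MM d e s := h1
    have h7 := hS.uniq hT (show v ≤ s by have := hs.1; omega) (by omega)
      (hv.on (hs.2.1.mono hj)) h2
    omega
  · intro s v hs hv u hu
    have h1 := fa_sound hB ((hresp s hs).1.2.1.1 v hv)
    have h2 := (crd_spec hG h1).1 u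
    rw [Nat.unpair_pair] at h2
    exact h2 hu
  · intro s u hs hu hM
    have h1 := fa_sound hB ((hresp s hs).1.2.1.2 u hM hu)
    have hlt := hS.pa_lt hT hu
    have hM' : u < MM d e s := hM
    have h2 := crd_spec hG (fa_sound hB ((hresp s hs).1.2.1.1 u hM))
    have h3 := crd_spec hG (fa_sound hB ((hresp s hs).1.2.1.1 (d.pa u) (by
      show d.pa u < MM d e s
      omega)))
    rw [← h2.2, ← h3.2] at h1
    have h4 := (rel_three.1 ((hG.rel _ _ _ (pair_ne_zero (by omega)) h3.1 h2.1).2 h1)).2.2.2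
    rw [Nat.unpair_pair, Nat.unpair_pair] at h4
    exact h4
  · intro s' s v u hp hv hne
    exact ((hsteps s' s hp v hv u).1 hne).1
  · intro s' s u hp hM hu hr hne
    have h1 := ((hsteps s' s hp _ hM u).1 hne).2
    have h2 : Ev d s e (d.C s e - 1) :=
      ⟨s', hp.2.2.1, prevr_of hS hstab hp, u, by omega, rt_pos hS hr, hr.2.2,
        hr.1.agr hp.2.1.2.1, hr.2.1, hM, h1⟩
    rcases (hresp s hp.2.1).2 with h3 | h3
    · exact h3.2
    · exact (h3.1 h2).elim
  · intro s' s hp h0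
    rcases (hresp s hp.2.1).2 with h3 | h3
    · obtain ⟨s1, h4, h5, v, h6, h7, h8, h9, h10, h11, h12⟩ := h3.1
      have h13 : s1 = s' := prevr_uniq h5 (prevr_of hS hstab hp) h4 hp.2.2.1
      subst h13
      have hM := hltM s1 s hp
      refine ⟨v, by omega, ⟨hp.2.1.2.1.of_agr h9, h10, h8⟩, h11, ?_⟩
      exact (hsteps s1 s hp _ h11 v).2 ⟨by omega, h12⟩
    · omega

end

end Pool.Agent.Helper941.Hyp
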