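import Mathlib

set_option autoImplicit false

namespace Pool.Agent.Helper941.Hyp

open Encodable Denumerable

/-- The (lightface) `Σ¹₁` predicates, in normal form: `P a` holds iff there is a function
`f : ℕ → ℕ` such that the computable predicate `R` holds of `a` and of every finite initial
segment `(f 0, …, f (n - 1))` of `f`. -/
def Sigma11 {α : Type} [Primcodable α] (P : α → Prop) : Prop :=
  ∃ R : α × List ℕ → Prop, ComputablePred R ∧
    ∀ a, P a ↔ ∃ f : ℕ → ℕ, ∀ n, R (a, (List.range n).map f)

/-- The `Δ¹₁` (equivalently, hyperarithmetic) predicates. -/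
def Delta11 {α : Type} [Primcodable α] (P : α → Prop) : Prop :=
  Sigma11 P ∧ Sigma11 fun a => ¬ P a

/-- Structures with universe `ω` for the relational language with relation symbols
`R_0, R_1, …`, the symbol `R_i` having arity `ar i`: `A i v` says that `R_i(v)` holds. -/
abbrev Struct (ar : ℕ → ℕ) := (i : ℕ) → (Fin (ar i) → ℕ) → Prop

variable {ar : ℕ → ℕ}

/-- The atomic diagram: the set of the codes of the atomic sentences `R_i(v)` true in `A`. -/
def Diag (A : Struct ar) (x : ℕ) : Prop :=
  ∃ (i : ℕ) (v : Fin (ar i) → ℕ), x = Nat.pair i (encode (List.ofFn v)) ∧ A i v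

/-- `e` is an index of `A`: the `e`-th partial computable function is the characteristic
function of the atomic diagram of `A`. -/
def IndexOf (e : ℕ) (A : Struct ar) : Prop :=
  ∀ x, (Diag A x → Nat.Partrec.Code.eval (ofNat Nat.Partrec.Code e) x = Part.some 1) ∧
    (¬ Diag A x → Nat.Partrec.Code.eval (ofNat Nat.Partrec.Code e) x = Part.some 0)

/-- `A` is a computable structure. -/
def IsComputable (A : Struct ar) : Prop := ∃ e, IndexOf e A

/-- `A` and `B` are isomorphic. -/
def Iso (A B : Struct ar) : Prop := ∃ f : ℕ ≃ ℕ, ∀ i v, A i v ↔ B i fun k => f (v k)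

/-- A class of computable structures, closed under isomorphism (among computable
structures). -/
def IsClass (K : Set (Struct ar)) : Prop :=
  (∀ A ∈ K, IsComputable A) ∧ ∀ A ∈ K, ∀ B, IsComputable B → Iso A B → B ∈ K

/-- the index set `I(K)` -/
def IndexSet (K : Set (Struct ar)) (e : ℕ) : Prop := ∃ A ∈ K, IndexOf e A

/-- the isomorphism relation `E_K` on `I(K)` -/
def IsoRel (K : Set (Struct ar)) (p : ℕ × ℕ) : Prop :=
  ∃ A ∈ K, ∃ B ∈ K, IndexOf p.1 A ∧ IndexOf p.2 B ∧ Iso A B

/-- hyperarithmetic classes of computable structures -/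
def HypClass (K : Set (Struct ar)) : Prop := IsClass K ∧ Delta11 (IndexSet K)

/-- hyperarithmetic reducibility of the isomorphism relation on `K'` to that on `K` -/
def HypRed {ar' : ℕ → ℕ} (K' : Set (Struct ar')) (K : Set (Struct ar)) : Prop :=
  ∃ f : ℕ → ℕ, (Delta11 fun p : ℕ × ℕ => f p.1 = p.2) ∧
    (∀ x, IndexSet K' x → IndexSet K (f x)) ∧
    ∀ x y, IndexSet K' x → IndexSet K' y → (IsoRel K' (x, y) ↔ IsoRel K (f x, f y))

/-- completeness among the isomorphism relations on hyperarithmetic classes of computable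
structures, in any computable language -/
def IsComplete (K : Set (Struct ar)) : Prop :=
  ∀ ar' : ℕ → ℕ, Computable ar' → ∀ K' : Set (Struct ar'), HypClass K' → HypRed K' K

end Pool.Agent.Helper941.Hyp
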