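import Mathlib
import Pool.Agent.KS6_49.L8.Helper941.Hyp.Defs
import Pool.Agent.KS6_49.L8.Helper941.Zeta.Cmp

set_option autoImplicit false
set_option maxHeartbeats 400000

namespace Pool.Agent.Helper941.Hyp

open Encodable Denumerable Nat.Partrec Pool.Agent.Helper941 Pool.Agent.Helper941.IsoProb
open Pool.Agent.Helper941.Zeta

variable {α β : Type} [Primcodable α] [Primcodable β]

/-- entries of a list -/
def gt (l : List ℕ) (i : ℕ) : ℕ := (l[i]?).getD 0

theorem c_gt {f : α → List ℕ} {g : α → ℕ} (hf : Computable f) (hg : Computable g) :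
    Computable fun a => gt (f a) (g a) :=
  (Primrec.option_getD.to_comp).comp (Computable.list_getElem?.comp hf hg) (Computable.const 0)

theorem gt_range (f : ℕ → ℕ) {n i : ℕ} (h : i < n) : gt ((List.range n).map f) i = f i := by
  unfold gt
  simp [h]

/-- the restriction of a list -/
def tk (l : List ℕ) (m : ℕ) : List ℕ := (List.range m).map (gt l)

theorem c_tk {f : α → List ℕ} {g : α → ℕ} (hf : Computable f) (hg : Computable g) :
    Computable fun a => tk (f a) (g a) :=
  c_tab hg (c_gt (hf.comp Computable.fst) Computable.snd)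

theorem tk_range (f : ℕ → ℕ) {n m : ℕ} (h : m ≤ n) :
    tk ((List.range n).map f) m = (List.range m).map f := by
  unfold tk
  refine List.map_congr_left fun i hi => ?_
  exact gt_range f (by have := List.mem_range.1 hi; omega)

/-- general form of `Σ¹₁` definitions -/
theorem sigma11_gen {P : α → Prop} {R : α × ℕ × List ℕ → Prop} (hR : ComputablePred R)
    {u : α × ℕ → ℕ} (hu : Computable u)
    (h : ∀ a, P a ↔ ∃ f : ℕ → ℕ, ∀ n, R (a, n, (List.range (u (a, n))).map f)) :
    Sigma11 P := by
  refine ⟨fun p => ∀ n < p.2.length, u (p.1, n) ≤ p.2.length → R (p.1, n, tk p.2 (u (p.1, n))),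
    ?_, fun a => ?_⟩
  · have h1 : Computable fun q : (α × List ℕ) × ℕ => u (q.1.1, q.2) :=
      hu.comp (c_pair (c_fst (c_fst c_id)) (c_snd c_id))
    have h2 : Computable fun q : (α × List ℕ) × ℕ => q.1.2.length :=
      Computable.list_length.comp (c_snd (c_fst c_id))
    have h3 : ComputablePred fun q : (α × List ℕ) × ℕ =>
        R (q.1.1, q.2, tk q.1.2 (u (q.1.1, q.2))) :=
      computablePred_comp hR (c_pair (c_fst (c_fst c_id)) (c_pair (c_snd c_id)
        (c_tk (c_snd (c_fst c_id)) h1)))
    exact p_ball (Computable.list_length.comp (c_snd c_id)) (p_imp (p_le h1 h2) h3)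
  · rw [h]
    refine exists_congr fun f => ?_
    constructor
    · intro h1 k n hn hk
      simp only [List.length_map, List.length_range] at hn hk ⊢
      rw [tk_range f hk]
      exact h1 n
    · intro h1 n
      have h2 := h1 (n + 1 + u (a, n)) n (by simp; omega) (by simp)
      simp only at h2
      rw [tk_range f (by omega)] at h2
      exact h2

theorem Sigma11.of_iff {P Q : α → Prop} (h : Sigma11 P) (e : ∀ a, Q a ↔ P a) : Sigma11 Q := by
  have : Q = P := funext fun a => propext (e a)
  rw [this]; exact h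

theorem Sigma11.comp {P : β → Prop} (h : Sigma11 P) {f : α → β} (hf : Computable f) :
    Sigma11 fun a => P (f a) := by
  obtain ⟨R, hR, e⟩ := h
  exact ⟨fun p => R (f p.1, p.2), computablePred_comp hR
    (c_pair (hf.comp Computable.fst) Computable.snd), fun a => e (f a)⟩

theorem Sigma11.of_computable {P : α → Prop} (h : ComputablePred P) : Sigma11 P :=
  ⟨fun p => P p.1, computablePred_comp h Computable.fst,
    fun _ => ⟨fun h => ⟨fun _ => 0, fun _ => h⟩, fun ⟨_, h⟩ => h 0⟩⟩

/-- the entries of a column -/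
def cl (l : List ℕ) (i m : ℕ) : List ℕ := (List.range m).map fun k => gt l (Nat.pair i k)

theorem c_cl {f : α → List ℕ} {g h : α → ℕ} (hf : Computable f) (hg : Computable g)
    (hh : Computable h) : Computable fun a => cl (f a) (g a) (h a) :=
  c_tab hh (c_gt (hf.comp Computable.fst) (c_npair (hg.comp Computable.fst) Computable.snd))

theorem cl_range (f : ℕ → ℕ) {i m n : ℕ} (h : Nat.pair i m ≤ n) :
    cl ((List.range n).map f) i m = (List.range m).map fun k => f (Nat.pair i k) := by
  unfold cl
  refine List.map_congr_left fun k hk => ?_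
  have hk' : k < m := List.mem_range.1 hk
  have := Nat.pair_lt_pair_right i hk'
  exact gt_range f (by omega)

theorem Sigma11.and {P Q : α → Prop} (h : Sigma11 P) (h' : Sigma11 Q) :
    Sigma11 fun a => P a ∧ Q a := by
  obtain ⟨R, hR, e⟩ := h
  obtain ⟨R', hR', e'⟩ := h'
  refine sigma11_gen (R := fun q => R (q.1, cl q.2.2 0 q.2.1) ∧ R' (q.1, cl q.2.2 1 q.2.1))
    (u := fun p => Nat.pair 0 p.2 + Nat.pair 1 p.2) ?_ ?_ fun a => ?_
  · exact p_and (computablePred_comp hR (c_pair (c_fst c_id) (c_cl (c_snd (c_snd c_id))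
      (c_const 0) (c_fst (c_snd c_id))))) (computablePred_comp hR' (c_pair (c_fst c_id)
      (c_cl (c_snd (c_snd c_id)) (c_const 1) (c_fst (c_snd c_id)))))
  · exact c_add (c_npair (c_const 0) (c_snd c_id)) (c_npair (c_const 1) (c_snd c_id))
  · rw [e, e']
    constructor
    · rintro ⟨⟨f, hf⟩, ⟨g, hg⟩⟩
      refine ⟨fun x => if x.unpair.1 = 0 then f x.unpair.2 else g x.unpair.2, fun n => ?_⟩
      simp only
      rw [cl_range _ (by omega), cl_range _ (by omega)]
      simp only [Nat.unpair_pair]
      exact ⟨hf n, hg n⟩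
    · rintro ⟨f, hf⟩
      refine ⟨⟨fun k => f (Nat.pair 0 k), fun n => ?_⟩, ⟨fun k => f (Nat.pair 1 k), fun n => ?_⟩⟩
      · have := (hf n).1
        simp only at this
        rwa [cl_range _ (by omega)] at this
      · have := (hf n).2
        simp only at this
        rwa [cl_range _ (by omega)] at this

theorem Sigma11.all {P : α × ℕ → Prop} (h : Sigma11 P) : Sigma11 fun a => ∀ y, P (a, y) := by
  obtain ⟨R, hR, e⟩ := h
  refine sigma11_gen (R := fun q => R ((q.1, q.2.1.unpair.1),
    cl q.2.2 q.2.1.unpair.1 q.2.1.unpair.2)) (u := fun p => p.2) ?_ (c_snd c_id) fun a => ?_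
  · exact computablePred_comp hR (c_pair (c_pair (c_fst c_id) (c_up1 (c_fst (c_snd c_id))))
      (c_cl (c_snd (c_snd c_id)) (c_up1 (c_fst (c_snd c_id))) (c_up2 (c_fst (c_snd c_id)))))
  · constructor
    · intro h1
      have h2 : ∀ y, ∃ f : ℕ → ℕ, ∀ n, R ((a, y), (List.range n).map f) :=
        fun y => (e _).1 (h1 y)
      choose f hf using h2
      refine ⟨fun x => f x.unpair.1 x.unpair.2, fun n => ?_⟩
      simp only
      rw [cl_range _ (by rw [Nat.pair_unpair])]
      simp only [Nat.unpair_pair]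
      exact hf _ _
    · rintro ⟨f, hf⟩ y
      refine (e _).2 ⟨fun k => f (Nat.pair y k), fun n => ?_⟩
      have := hf (Nat.pair y n)
      simp only [Nat.unpair_pair] at this
      rwa [cl_range _ (le_refl _)] at this

/-- the tail of a list, cut at `n` -/
def tl (l : List ℕ) (n : ℕ) : List ℕ := (List.range n).map fun k => gt l (k + 1)

theorem c_tl {f : α → List ℕ} {g : α → ℕ} (hf : Computable f) (hg : Computable g) :
    Computable fun a => tl (f a) (g a) :=
  c_tab hg (c_gt (hf.comp Computable.fst) (c_succ Computable.snd))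

theorem tl_range (f : ℕ → ℕ) (n : ℕ) :
    tl ((List.range (n + 1)).map f) n = (List.range n).map fun k => f (k + 1) := by
  unfold tl
  refine List.map_congr_left fun k hk => ?_
  have hk' : k < n := List.mem_range.1 hk
  exact gt_range f (by omega)

theorem Sigma11.ex {P : α × ℕ → Prop} (h : Sigma11 P) : Sigma11 fun a => ∃ y, P (a, y) := by
  obtain ⟨R, hR, e⟩ := h
  refine sigma11_gen (R := fun q => R ((q.1, gt q.2.2 0), tl q.2.2 q.2.1))
    (u := fun p => p.2 + 1) ?_ (c_succ (c_snd c_id)) fun a => ?_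
  · exact computablePred_comp hR (c_pair (c_pair (c_fst c_id) (c_gt (c_snd (c_snd c_id))
      (c_const 0))) (c_tl (c_snd (c_snd c_id)) (c_fst (c_snd c_id))))
  · constructor
    · rintro ⟨y, hy⟩
      obtain ⟨f, hf⟩ := (e _).1 hy
      refine ⟨fun x => Nat.casesOn x y f, fun n => ?_⟩
      simp only
      rw [gt_range _ (by omega), tl_range]
      exact hf n
    · rintro ⟨f, hf⟩
      refine ⟨f 0, (e _).2 ⟨fun k => f (k + 1), fun n => ?_⟩⟩
      have := hf n
      simp only at this
      rwa [gt_range _ (by omega), tl_range] at this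

theorem Sigma11.or {P Q : α → Prop} (h : Sigma11 P) (h' : Sigma11 Q) :
    Sigma11 fun a => P a ∨ Q a := by
  obtain ⟨R, hR, e⟩ := h
  obtain ⟨R', hR', e'⟩ := h'
  have h1 : Sigma11 fun p : α × ℕ => (p.2 = 0 → P p.1) ∧ (¬ p.2 = 0 → Q p.1) := by
    refine ⟨fun q => (q.1.2 = 0 → R (q.1.1, q.2)) ∧ (¬ q.1.2 = 0 → R' (q.1.1, q.2)), ?_,
      fun a => ?_⟩
    · have h3 : ComputablePred fun q : (α × ℕ) × List ℕ => q.1.2 = 0 :=
        p_eq (c_snd (c_fst c_id)) (c_const 0)
      exact p_and (p_imp h3 (computablePred_comp hR (c_pair (c_fst (c_fst c_id)) (c_snd c_id))))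
        (p_imp (p_not h3) (computablePred_comp hR' (c_pair (c_fst (c_fst c_id)) (c_snd c_id))))
    · obtain ⟨a, y⟩ := a
      simp only
      rw [e, e']
      by_cases hy : y = 0
      · simp [hy]
      · simp [hy]
  refine (Sigma11.ex h1).of_iff fun a => ?_
  constructor
  · rintro (h2 | h2)
    · exact ⟨0, fun _ => h2, fun h => (h rfl).elim⟩
    · exact ⟨1, fun h => absurd h (by simp), fun _ => h2⟩
  · rintro ⟨y, h2, h3⟩
    by_cases hy : y = 0
    · exact Or.inl (h2 hy)
    · exact Or.inr (h3 hy)

/-! ### the calculus of `Δ¹₁` predicates -/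

theorem Delta11.of_iff {P Q : α → Prop} (h : Delta11 P) (e : ∀ a, Q a ↔ P a) : Delta11 Q := by
  have : Q = P := funext fun a => propext (e a)
  rw [this]; exact h

theorem Delta11.of_computable {P : α → Prop} (h : ComputablePred P) : Delta11 P :=
  ⟨Sigma11.of_computable h, Sigma11.of_computable (p_not h)⟩

theorem Delta11.comp {P : β → Prop} (h : Delta11 P) {f : α → β} (hf : Computable f) :
    Delta11 fun a => P (f a) := ⟨h.1.comp hf, h.2.comp hf⟩

theorem Delta11.not {P : α → Prop} (h : Delta11 P) : Delta11 fun a => ¬ P a :=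
  ⟨h.2, h.1.of_iff fun _ => not_not⟩

theorem Delta11.and {P Q : α → Prop} (h : Delta11 P) (h' : Delta11 Q) :
    Delta11 fun a => P a ∧ Q a :=
  ⟨h.1.and h'.1, (h.2.or h'.2).of_iff fun _ => not_and_or⟩

theorem Delta11.or {P Q : α → Prop} (h : Delta11 P) (h' : Delta11 Q) :
    Delta11 fun a => P a ∨ Q a :=
  ⟨h.1.or h'.1, (h.2.and h'.2).of_iff fun _ => not_or⟩

theorem Delta11.imp {P Q : α → Prop} (h : Delta11 P) (h' : Delta11 Q) :
    Delta11 fun a => P a → Q a := (h.not.or h').of_iff fun _ => imp_iff_not_or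

theorem Delta11.iff {P Q : α → Prop} (h : Delta11 P) (h' : Delta11 Q) :
    Delta11 fun a => (P a ↔ Q a) := ((h.imp h').and (h'.imp h)).of_iff fun _ => iff_def

theorem Delta11.ex {P : α × ℕ → Prop} (h : Delta11 P) : Delta11 fun a => ∃ y, P (a, y) :=
  ⟨h.1.ex, (h.2.all).of_iff fun _ => by push Not; rfl⟩

theorem Delta11.all {P : α × ℕ → Prop} (h : Delta11 P) : Delta11 fun a => ∀ y, P (a, y) :=
  ⟨h.1.all, (h.2.ex).of_iff fun _ => by push Not; rfl⟩

/-- quantification over a coded type -/
theorem Delta11.ex' {P : α × β → Prop} (h : Delta11 P) : Delta11 fun a => ∃ y, P (a, y) := by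
  by_cases hβ : Nonempty β
  · obtain ⟨b0⟩ := hβ
    have h1 : Delta11 fun p : α × ℕ => (decode (α := β) p.2).isSome = true ∧
        P (p.1, (decode (α := β) p.2).getD b0) := by
      refine (Delta11.of_computable ?_).and (h.comp ?_)
      · refine ComputablePred.computable_iff.2
          ⟨fun p : α × ℕ => (decode (α := β) p.2).isSome, ?_, rfl⟩
        exact (Primrec.option_isSome.to_comp).comp (Computable.decode.comp Computable.snd)
      · refine Computable.pair Computable.fst ?_
        exact (Primrec.option_getD.to_comp).comp (Computable.decode.comp Computable.snd)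
          (Computable.const b0)
    refine h1.ex.of_iff fun a => ?_
    constructor
    · rintro ⟨y, hy⟩
      exact ⟨encode y, by simpa using hy⟩
    · rintro ⟨k, _, hk⟩
      exact ⟨_, hk⟩
  · refine (Delta11.of_computable (P := fun _ : α => False) ?_).of_iff fun a => ?_
    · exact ComputablePred.computable_iff.2 ⟨fun _ => false, Computable.const _, by funext a; simp⟩
    · simp only [iff_false]
      rintro ⟨y, _⟩
      exact hβ ⟨y⟩

theorem Delta11.all' {P : α × β → Prop} (h : Delta11 P) : Delta11 fun a => ∀ y, P (a, y) :=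
  (h.not.ex').not.of_iff fun a => by push Not; rfl

/-- values of partial computable functions -/
theorem delta_eval {c x y : α → ℕ} (hc : Computable c) (hx : Computable x) (hy : Computable y) :
    Delta11 fun a => Code.eval (ofNat Code (c a)) (x a) = Part.some (y a) := by
  have h1 : ComputablePred fun p : α × ℕ =>
      Code.evaln p.2 (ofNat Code (c p.1)) (x p.1) = some (y p.1) := by
    refine eq_comp ?_ (Computable.option_some.comp (hy.comp Computable.fst))
    exact (Code.primrec_evaln.to_comp).comp (c_pair (c_pair (c_snd c_id)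
      ((Computable.ofNat Code).comp (hc.comp Computable.fst))) (hx.comp Computable.fst))
  refine (Delta11.of_computable h1).ex.of_iff fun a => ?_
  rw [Part.eq_some_iff]
  exact Code.evaln_complete

/-- hyperarithmetic functions: preimages -/
theorem Delta11.comp_hyp {f : ℕ → ℕ} (hf : Delta11 fun p : ℕ × ℕ => f p.1 = p.2)
    {C : ℕ → Prop} (hC : Delta11 C) : Delta11 fun x => C (f x) := by
  have h1 : Delta11 fun p : ℕ × ℕ => f p.1 = p.2 ∧ C p.2 := hf.and (hC.comp (c_snd c_id))
  refine h1.ex.of_iff fun x => ?_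
  constructor
  · intro h
    exact ⟨f x, rfl, h⟩
  · rintro ⟨y, h2, h3⟩
    rw [h2]; exact h3

/-! ### a universal predicate -/

/-- the tree of approximations to the `e`-th `Σ¹₁` predicate at `x` -/
def UT (e x : ℕ) (l : List ℕ) : Prop :=
  ∀ m < l.length + 1, ¬ haltsIn (ofNat Code e) (Nat.pair x (encode (tk l m))) l.length = true

def UU1 (e x : ℕ) : Prop := ∃ f : ℕ → ℕ, ∀ n, UT e x ((List.range n).map f)

theorem ut_range {e x : ℕ} {f : ℕ → ℕ} {n : ℕ} : UT e x ((List.range n).map f) ↔
    ∀ m < n + 1, ¬ haltsIn (ofNat Code e) (Nat.pair x (encode ((List.range m).map f))) n =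
      true := by
  unfold UT
  rw [List.length_map, List.length_range]
  refine forall_congr' fun m => forall_congr' fun hm => ?_
  rw [tk_range f (by omega)]

theorem universal11 {P : ℕ → Prop} (h : Sigma11 P) : ∃ e, ∀ x, P x ↔ UU1 e x := by
  obtain ⟨R, hR, h1⟩ := h
  obtain ⟨c, hc⟩ := sigma1_code (ComputablePred.sigma (p_not hR) : Sigma0 1 fun a => ¬ R a)
  refine ⟨encode c, fun x => ?_⟩
  rw [h1]
  refine exists_congr fun f => ?_
  have h2 : ∀ σ : List ℕ, ¬ R (x, σ) ↔ ∃ s, haltsIn c (Nat.pair x (encode σ)) s = true := by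
    intro σ
    rw [hc, haltsIn_iff]
    rfl
  constructor
  · intro h3 n
    rw [ut_range]
    intro m hm hh
    rw [ofNat_encode] at hh
    exact (h2 _).2 ⟨n, hh⟩ (h3 m)
  · intro h3 n
    by_contra hc'
    obtain ⟨s, hs⟩ := (h2 _).1 hc'
    have h4 := ut_range.1 (h3 (n + s)) n (by omega)
    rw [ofNat_encode] at h4
    exact h4 (haltsIn_mono _ _ (by omega) hs)

theorem not_delta_diag : ¬ Delta11 fun e => UU1 e e := by
  intro h
  obtain ⟨e, he⟩ := universal11 h.2
  have := he e
  tauto

end Pool.Agent.Helper941.Hyp
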