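import Mathlib
import Pool.Agent.KS6_49.L8.Helper941.Hyp.Cc
import Pool.Agent.KS6_49.L8.Helper941.Hyp.Sig
import Pool.Agent.KS6_49.L8.Helper941.Dim.Tree2

set_option autoImplicit false
set_option maxHeartbeats 400000

namespace Pool.Agent.Helper941.Hyp

open Encodable Denumerable Nat.Partrec Pool.Agent.Helper941 Pool.Agent.Helper941.IsoProb
open Pool.Agent.Helper941.Zeta Pool.Agent.Helper941.Dim

/-- an infinite path of labels -/
structure IsPath (T : ℕ → Prop) (pr l : ℕ → ℕ) : Prop where
  zero : l 0 = 0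
  pos : ∀ k, 1 ≤ l (k + 1)
  prv : ∀ k, pr (l (k + 1)) = l k
  mem : ∀ k, T (l (k + 1))

theorem IsPath.memk {T : ℕ → Prop} {pr l : ℕ → ℕ} (hT : TH T pr) (h : IsPath T pr l) (k : ℕ) :
    T (l k) := by
  cases k with
  | zero => rw [h.zero]; exact hT.zero
  | succ k => exact h.mem k

/-- a path gives a flow -/
theorem flow_of_path {T : ℕ → Prop} {pr l : ℕ → ℕ} {d : Dat} (hS : Spec T pr d)
    (hT : TH T pr) (h : IsPath T pr l) : ∃ t w : ℕ → ℕ, Flow d.pa t ∧ w 0 = 0 ∧
      (∀ k, 1 ≤ w (k + 1) ∧ d.pa (w (k + 1)) = w k) ∧ (∀ k, d.J (w k) = l k + 1) ∧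
      ∀ k, t (w k) = 2 ^ w (k + 1) := by
  classical
  obtain ⟨g, hg⟩ := exists_tp (d := d) hS.O_le
  choose w hw using fun k => pers_exists hS hg (l k) (h.memk hT k)
  have hpa : ∀ k, 1 ≤ w (k + 1) ∧ d.pa (w (k + 1)) = w k := by
    intro k
    obtain ⟨h1, h2⟩ := (hw (k + 1)).pa hS hT (h.pos k)
    rw [h.prv] at h2
    exact ⟨h1, h2.uniq hS hT hg (hw k)⟩
  have h0 : w 0 = 0 := by
    have := hw 0
    rw [h.zero] at this
    exact this.uniq hS hT hg (pers_zero hS)
  have hmono : StrictMono w := by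
    refine strictMono_nat_of_lt_succ fun k => ?_
    obtain ⟨h1, h2⟩ := hpa k
    have := hS.pa_lt hT h1
    omega
  let t : ℕ → ℕ := fun v => if hv : ∃ k, w k = v then 2 ^ w (hv.choose + 1) else 0
  have ht1 : ∀ k, t (w k) = 2 ^ w (k + 1) := by
    intro k
    have hv : ∃ k', w k' = w k := ⟨k, rfl⟩
    show (if hv : ∃ k', w k' = w k then 2 ^ w (hv.choose + 1) else 0) = _
    rw [dif_pos hv]
    have := hmono.injective hv.choose_spec
    rw [this]
  have ht2 : ∀ v, (¬ ∃ k, w k = v) → t v = 0 := fun v hv => dif_neg hv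
  refine ⟨t, w, ⟨?_, ?_⟩, h0, hpa, fun k => (hw k).1, ht1⟩
  · intro v u hu
    by_cases hv : ∃ k, w k = v
    · obtain ⟨k, rfl⟩ := hv
      rw [ht1, Nat.testBit_two_pow] at hu
      have hu' : w (k + 1) = u := by simpa using hu
      rw [← hu']
      exact hpa k
    · rw [ht2 v hv] at hu
      simp at hu
  · intro u hu
    by_cases hv : ∃ k, w k = u
    · obtain ⟨k, rfl⟩ := hv
      cases k with
      | zero => omega
      | succ k =>
        rw [(hpa k).2, ht1, ht1, par_two_pow, Nat.testBit_two_pow]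
        simp
    · rw [ht2 u hv]
      by_contra hc
      have h1 : (t (d.pa u)).testBit u = true := by
        by_contra hc'
        simp only [Bool.not_eq_true] at hc'
        exact hc (by rw [hc']; rfl)
      by_cases hv' : ∃ k, w k = d.pa u
      · obtain ⟨k, hk⟩ := hv'
        rw [← hk, ht1, Nat.testBit_two_pow] at h1
        exact hv ⟨k + 1, by simpa using h1⟩
      · rw [ht2 _ hv'] at h1
        simp at h1

/-- an odd chain gives a path -/
theorem path_of_flow {T : ℕ → Prop} {pr : ℕ → ℕ} {d : Dat} (hS : Spec T pr d)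
    (hT : TH T pr) {t : ℕ → ℕ} (hF : Flow d.pa t) {u : ℕ} (hu : (t 0).testBit u = true) :
    ∃ l, IsPath T pr l ∧ d.J u = l 1 + 1 := by
  have hnx : ∀ v, ∃ u, par (t v) = true → (t v).testBit u = true := by
    intro v
    by_cases h : par (t v) = true
    · obtain ⟨u, hu⟩ := exists_of_par h
      exact ⟨u, fun _ => hu⟩
    · exact ⟨0, fun h' => (h h').elim⟩
  choose nx hnx using hnx
  have hodd : ∀ v u, (t v).testBit u = true → par (t u) = true := by
    intro v u hu
    obtain ⟨h1, h2⟩ := hF.child v u hu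
    rw [← hF.par u h1, h2, hu]
  let a : ℕ → ℕ := fun k => Nat.casesOn k 0 fun k => nx^[k] u
  have ha : ∀ k, par (t (nx^[k] u)) = true := by
    intro k
    induction k with
    | zero => exact hodd _ _ hu
    | succ k ih =>
      rw [Function.iterate_succ_apply']
      exact hodd _ _ (hnx _ ih)
  have h1 : ∀ k, (t (a k)).testBit (a (k + 1)) = true := by
    intro k
    cases k with
    | zero => exact hu
    | succ k =>
      show (t (nx^[k] u)).testBit (nx^[k + 1] u) = true
      rw [Function.iterate_succ_apply']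
      exact hnx _ (ha k)
  have hp : ∀ k, 1 ≤ a (k + 1) ∧ d.pa (a (k + 1)) = a k := fun k => hF.child _ _ (h1 k)
  have hJ : ∀ k, d.J (a (k + 1)) ≠ 0 := by
    intro k hc
    obtain ⟨h2, h3⟩ := hp (k + 1)
    by_cases h4 : d.J (a (k + 1 + 1)) = 0
    · have h5 := hS.leaf h2 h4
      have := (hp k).1
      omega
    · obtain ⟨j, hj⟩ : ∃ j, d.J (a (k + 1 + 1)) = j + 1 :=
        ⟨d.J (a (k + 1 + 1)) - 1, by omega⟩
      obtain ⟨_, _, _, h5, _⟩ := hS.child hT h2 hj
      have := h5.1
      rw [h3, hc] at this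
      omega
  have hc : ∀ k, 1 ≤ d.J (a (k + 1)) - 1 ∧ T (d.J (a (k + 1)) - 1) ∧
      pr (d.J (a (k + 1)) - 1) = d.J (a k) - 1 := by
    intro k
    have h2 := hJ k
    obtain ⟨h3, h4, _, h5, _⟩ := hS.child hT (hp k).1
      (show d.J (a (k + 1)) = (d.J (a (k + 1)) - 1) + 1 by omega)
    refine ⟨h3, h4, ?_⟩
    have := h5.1
    rw [(hp k).2] at this
    omega
  refine ⟨fun k => d.J (a k) - 1, ⟨?_, fun k => (hc k).1, fun k => (hc k).2.2,
    fun k => (hc k).2.1⟩, ?_⟩
  · show d.J 0 - 1 = 0
    rw [hS.zero.1]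
  · have h2 : d.J u ≠ 0 := hJ 0
    show d.J u = d.J u - 1 + 1
    omega

/-! ### a tree with complicated ill-founded part -/

/-- the initial segments of the sequence coded by `j` after its first entry -/
def pre (j m : ℕ) : List ℕ := (List.range m).map fun i => dig j (i + 1)

def HT (j : ℕ) : Prop := ∀ m < len j, ¬ haltsIn (ofNat Code (dig j 0))
  (Nat.pair (dig j 0) (encode (pre j m))) (len j - 1) = true

theorem len_zero : len 0 = 0 := by
  unfold len
  rw [seq_zero]
  rfl

theorem th_HT : TH HT prn where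
  zero := by
    intro m hm
    rw [len_zero] at hm
    omega
  up := by
    intro j hj h m hm hh
    have h1 := len_prn hj
    have h2 : dig (prn j) 0 = dig j 0 := dig_prn hj (by omega)
    have h3 : pre (prn j) m = pre j m := by
      unfold pre
      refine List.map_congr_left fun i hi => ?_
      have := List.mem_range.1 hi
      exact dig_prn hj (by omega)
    rw [h2, h3] at hh
    exact h m (by omega) (haltsIn_mono _ _ (by omega) hh)
  lt := fun _ hj => prn_lt hj

theorem p_HT : ComputablePred HT := by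
  have h1 : Computable fun p : ℕ × ℕ => dig p.1 0 := c_dig (c_fst c_id) (c_const 0)
  have h2 : Computable fun p : ℕ × ℕ => encode (pre p.1 p.2) := by
    refine Computable.encode.comp ?_
    exact c_tab (c_snd c_id) (c_dig (c_fst (c_fst c_id)) (c_succ (c_snd c_id)))
  have h3 := c_halts (α := ℕ × ℕ) (a := fun p => dig p.1 0)
    (b := fun p => Nat.pair (dig p.1 0) (encode (pre p.1 p.2))) (c := fun p => len p.1 - 1)
    h1 (c_npair h1 h2) (c_sub (c_lenj (c_fst c_id)) (c_const 1))
  exact p_ball (c_lenj c_id) (p_not (p_of_bool h3))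

theorem path_nod {T : ℕ → Prop} {l : ℕ → ℕ} (h : IsPath T prn l) :
    ∃ g : ℕ → ℕ, ∀ k, l k = nod g k := by
  have hlen : ∀ k, len (l k) = k := by
    intro k
    induction k with
    | zero => rw [h.zero, len_zero]
    | succ k ih => rw [← len_prn (h.pos k), h.prv, ih]
  have hd : ∀ m i, i < m → dig (l m) i = dig (l (i + 1)) i := by
    intro m
    induction m with
    | zero => intro i hi; omega
    | succ m ih =>
      intro i hi
      by_cases h4 : i = m
      · rw [h4]
      · have h5 : i < len (prn (l (m + 1))) := by rw [h.prv, hlen]; omega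
        rw [← dig_prn (h.pos m) h5, h.prv]
        exact ih i (by omega)
  refine ⟨fun i => dig (l (i + 1)) i, fun k => ?_⟩
  have := nod_ext (f := fun i => dig (l (i + 1)) i) (j := l k) fun i hi => by
    rw [hlen] at hi
    exact hd k i hi
  rw [hlen] at this
  exact this

theorem HT_nod (g : ℕ → ℕ) (n : ℕ) : HT (nod g (n + 1)) ↔
    UT (g 0) (g 0) ((List.range n).map fun i => g (i + 1)) := by
  rw [ut_range]
  unfold HT
  rw [len_nod, dig_nod g (by omega)]
  refine forall_congr' fun m => forall_congr' fun hm => ?_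
  have : pre (nod g (n + 1)) m = (List.range m).map fun i => g (i + 1) := by
    unfold pre
    refine List.map_congr_left fun i hi => ?_
    have := List.mem_range.1 hi
    exact dig_nod g (by omega)
  rw [this, Nat.add_sub_cancel]

/-- the label of the sequence `(e)` -/
def lab (e : ℕ) : ℕ := encode [e]

theorem lab_eq (g : ℕ → ℕ) : nod g 1 = lab (g 0) := by
  unfold nod lab
  simp

theorem path_iff (e : ℕ) : (∃ l, IsPath HT prn l ∧ l 1 = lab e) ↔ UU1 e e := by
  constructor
  · rintro ⟨l, hl, h1⟩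
    obtain ⟨g, hg⟩ := path_nod hl
    have h2 : g 0 = e := by
      rw [hg 1, lab_eq] at h1
      unfold lab at h1
      have := encode_injective h1
      simpa using this
    refine ⟨fun i => g (i + 1), fun n => ?_⟩
    rw [← h2]
    exact (HT_nod g n).1 (by rw [← hg]; exact hl.mem n)
  · rintro ⟨f, hf⟩
    let g : ℕ → ℕ := fun k => Nat.casesOn k e f
    refine ⟨nod g, ⟨rfl, fun k => nod_pos g k, fun k => prn_nod g k, fun k => ?_⟩, lab_eq g⟩
    exact (HT_nod g k).2 (hf k)

/-- the data for the structure -/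
noncomputable def dH : Dat := con HT prn

noncomputable def pH : ℕ → ℕ := dH.pa

theorem c_pH : Computable pH := con_pa p_HT c_prn

theorem spec_H : Spec HT prn dH := con_spec HT prn

/-- two descriptions of the complicated set of nodes -/
def XA (u : ℕ) : Prop := ∃ t, Flow pH t ∧ t 0 = 2 ^ u

def XB (u : ℕ) : Prop := 1 ≤ u ∧ pH u = 0 ∧ ∃ t, Flow pH t ∧ par (t u) = true

theorem not_delta_of {X : ℕ → Prop} (h1 : ∀ u, X u → ∃ l, IsPath HT prn l ∧ dH.J u = l 1 + 1)
    (h2 : ∀ l, IsPath HT prn l → ∃ u, X u ∧ dH.J u = l 1 + 1) : ¬ Delta11 X := by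
  intro h
  apply not_delta_diag
  have hJ : Computable fun p : ℕ × ℕ => dH.J p.2 := con_J p_HT c_prn (c_snd c_id)
  have hlab : Computable fun p : ℕ × ℕ => lab p.1 := by
    refine Computable.encode.comp ?_
    exact (Computable.list_cons.comp (c_fst c_id) (c_const []))
  have h3 : Delta11 fun p : ℕ × ℕ => X p.2 ∧ dH.J p.2 = lab p.1 + 1 :=
    (h.comp (c_snd c_id)).and (Delta11.of_computable (p_eq hJ (c_succ hlab)))
  refine h3.ex.of_iff fun e => ?_
  rw [← path_iff]
  constructor
  · rintro ⟨l, hl, hl1⟩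
    obtain ⟨u, hu, hu1⟩ := h2 l hl
    exact ⟨u, hu, by show dH.J u = lab e + 1; rw [hu1, hl1]⟩
  · rintro ⟨u, hu, hu1⟩
    obtain ⟨l, hl, hl1⟩ := h1 u hu
    have hu1' : dH.J u = lab e + 1 := hu1
    exact ⟨l, hl, by omega⟩

theorem not_delta_XA : ¬ Delta11 XA := by
  refine not_delta_of ?_ ?_
  · rintro u ⟨t, hF, ht⟩
    refine path_of_flow spec_H th_HT hF ?_
    rw [ht, Nat.testBit_two_pow]
    simp
  · intro l hl
    obtain ⟨t, w, hF, h0, _, h2, h3⟩ := flow_of_path spec_H th_HT hl
    refine ⟨w 1, ⟨t, hF, ?_⟩, h2 1⟩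
    have := h3 0
    rwa [h0] at this

theorem not_delta_XB : ¬ Delta11 XB := by
  refine not_delta_of ?_ ?_
  · rintro u ⟨hu, hp, t, hF, ht⟩
    refine path_of_flow spec_H th_HT hF ?_
    have := hF.par u hu
    rw [hp] at this
    rw [this, ht]
  · intro l hl
    obtain ⟨t, w, hF, h0, h1, h2, h3⟩ := flow_of_path spec_H th_HT hl
    refine ⟨w 1, ⟨(h1 0).1, ?_, t, hF, ?_⟩, h2 1⟩
    · have := (h1 0).2
      rw [h0] at this
      exact this
    · rw [h3, par_two_pow]

/-- automorphisms of the reduct are translations by flows -/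
theorem aut_shift {pa : ℕ → ℕ} {f : ℕ ≃ ℕ} (hf : RedIso pa (As pa false) f) :
    ∃ t, Flow pa t ∧ ∀ x, el pa (f x) = sh t (el pa x) := by
  let φ : ℕ → ℕ := fun p => el pa (f (idx pa p))
  have hφv : ∀ p, Valid pa (φ p) := fun p => el_valid pa _
  have hrel : ∀ i p q, i ≠ 0 → Valid pa p → Valid pa q →
      (Rel pa false i p q ↔ Rel pa false i (φ p) (φ q)) := by
    intro i p q hi hp hq
    have := hf i (idx pa p) (idx pa q) hi
    rw [el_idx hp, el_idx hq] at this
    exact this
  let t : ℕ → ℕ := fun v => (φ (Nat.pair v 0)).unpair.2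
  have hb : ∀ v, φ (Nat.pair v 0) = Nat.pair v (t v) := by
    intro v
    have h1 := (hrel (Nat.pair 1 v) _ _ (pair_ne_zero (by omega)) (valid_base _ v)
      (valid_base _ v)).1 (rel_one.2 ⟨rfl, by rw [Nat.unpair_pair]⟩)
    refine unpair_inj ?_ ?_
    · rw [Nat.unpair_pair]; exact (rel_one.1 h1).2
    · rw [Nat.unpair_pair]
  have hF : Flow pa t := by
    constructor
    · intro v u hu
      have := hφv (Nat.pair v 0) u
      rw [hb, Nat.unpair_pair] at this
      exact this hu
    · intro u hu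
      have h1 := (hrel (Nat.pair 3 u) (Nat.pair (pa u) 0) (Nat.pair u 0)
        (pair_ne_zero (by omega)) (valid_base _ _) (valid_base _ _)).1 (rel_three.2 (by
          rw [Nat.unpair_pair, Nat.unpair_pair]
          exact ⟨hu, rfl, rfl, by rw [Nat.zero_testBit]; rfl⟩))
      rw [hb, hb] at h1
      have h2 := (rel_three.1 h1).2.2.2
      rw [Nat.unpair_pair, Nat.unpair_pair] at h2
      exact h2
  refine ⟨t, hF, fun x => ?_⟩
  set v := (el pa x).unpair.1 with hv
  set X := (el pa x).unpair.2 with hX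
  have hval : ∀ k, Valid pa (Nat.pair v (X % 2 ^ k)) := by
    intro k u hu
    rw [Nat.unpair_pair] at hu ⊢
    rw [Nat.testBit_mod_two_pow] at hu
    simp only [Bool.and_eq_true] at hu
    exact el_valid pa x u hu.2
  have key : ∀ k, φ (Nat.pair v (X % 2 ^ k)) = Nat.pair v ((X % 2 ^ k) ^^^ t v) := by
    intro k
    induction k with
    | zero =>
      rw [pow_zero, Nat.mod_one, hb, Nat.zero_xor]
    | succ k ih =>
      by_cases hk : X.testBit k = true
      · obtain ⟨h1, h2⟩ := el_valid pa x k hk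
        have h3 := (hrel (Nat.pair 2 k) _ _ (pair_ne_zero (by omega)) (hval k)
          (hval (k + 1))).1 (rel_two.2 (by
            rw [Nat.unpair_pair, Nat.unpair_pair]
            exact ⟨h1, h2.symm, h2.symm, by rw [low_succ, if_pos hk]⟩))
        have h4 := rel_two.1 h3
        rw [ih, Nat.unpair_pair] at h4
        refine unpair_inj ?_ ?_
        · rw [Nat.unpair_pair, h4.2.2.1]
          exact h2
        · rw [Nat.unpair_pair, h4.2.2.2, low_succ, if_pos hk]
          show (X % 2 ^ k) ^^^ t v ^^^ 2 ^ k = ((X % 2 ^ k) ^^^ 2 ^ k) ^^^ t v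
          rw [Nat.xor_assoc, Nat.xor_comm (t v), ← Nat.xor_assoc]
      · rw [low_succ, if_neg hk]
        exact ih
  have h1 := key X
  rw [Nat.mod_eq_of_lt Nat.lt_two_pow_self] at h1
  have h2 : Nat.pair v X = el pa x := Nat.pair_unpair _
  rw [h2] at h1
  show _ = Nat.pair v (X ^^^ t v)
  rw [← h1]
  show _ = el pa (f (idx pa (el pa x)))
  rw [idx_el]

end Pool.Agent.Helper941.Hyp
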