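import Mathlib
import Pool.Agent.KS6_49.L8.Helper941.Hyp.HTree

set_option autoImplicit false
set_option maxHeartbeats 400000

namespace Pool.Agent.Helper941.Hyp

open Encodable Denumerable Nat.Partrec Pool.Agent.Helper941 Pool.Agent.Helper941.IsoProb
open Pool.Agent.Helper941.Zeta Pool.Agent.Helper941.Dim

/-- the binary language -/
abbrev ar2 : ℕ → ℕ := fun _ => 2

def toS (B : Str) : Struct ar2 := fun i v => B i (v 0) (v 1)

def frS (A : Struct ar2) : Str := fun i x y => A i ![x, y]

theorem toS_frS (A : Struct ar2) : toS (frS A) = A := by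
  funext i v
  show A i ![v 0, v 1] = A i v
  congr 1
  funext k
  fin_cases k <;> rfl

theorem frS_toS (B : Str) : frS (toS B) = B := rfl

theorem iso_toS {A B : Str} : Iso (toS A) (toS B) ↔
    ∃ f : ℕ ≃ ℕ, ∀ i x y, A i x y ↔ B i (f x) (f y) := by
  constructor
  · rintro ⟨f, hf⟩
    exact ⟨f, fun i x y => hf i ![x, y]⟩
  · rintro ⟨f, hf⟩
    exact ⟨f, fun i v => hf i (v 0) (v 1)⟩

theorem Iso.refl {ar : ℕ → ℕ} (A : Struct ar) : Iso A A := ⟨Equiv.refl ℕ, fun _ _ => Iff.rfl⟩

theorem Iso.symm {ar : ℕ → ℕ} {A B : Struct ar} (h : Iso A B) : Iso B A := by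
  obtain ⟨f, hf⟩ := h
  refine ⟨f.symm, fun i v => ?_⟩
  rw [hf]
  simp

theorem Iso.trans {ar : ℕ → ℕ} {A B C : Struct ar} (h : Iso A B) (h' : Iso B C) : Iso A C := by
  obtain ⟨f, hf⟩ := h
  obtain ⟨g, hg⟩ := h'
  exact ⟨f.trans g, fun i v => (hf i v).trans (hg i _)⟩

/-- the diagram of a structure in the binary language -/
theorem diag_iff (B : Str) (x : ℕ) : Diag (toS B) x ↔
    (ofNat (List ℕ) x.unpair.2).length = 2 ∧
      B x.unpair.1 (gt (ofNat (List ℕ) x.unpair.2) 0) (gt (ofNat (List ℕ) x.unpair.2) 1) := by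
  constructor
  · rintro ⟨i, v, rfl, h⟩
    have h1 : ofNat (List ℕ) (Nat.pair i (encode (List.ofFn v))).unpair.2 = [v 0, v 1] := by
      rw [Nat.unpair_pair, ofNat_encode]
      rfl
    rw [h1, Nat.unpair_pair]
    exact ⟨rfl, h⟩
  · rintro ⟨h1, h2⟩
    set l := ofNat (List ℕ) x.unpair.2 with hl
    refine ⟨x.unpair.1, ![gt l 0, gt l 1], ?_, h2⟩
    obtain ⟨a, b, hab⟩ := List.length_eq_two.1 h1
    have h3 : List.ofFn ![gt l 0, gt l 1] = l := by
      rw [hab]
      rfl
    have h4 : encode (List.ofFn (![gt l 0, gt l 1] : Fin (ar2 x.unpair.1) → ℕ)) =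
        x.unpair.2 := by
      have h5 : (List.ofFn (![gt l 0, gt l 1] : Fin (ar2 x.unpair.1) → ℕ)) = l := h3
      rw [h5, hl, encode_ofNat]
    rw [h4, Nat.pair_unpair]

/-- uniformly computable families of structures have computable families of indices -/
theorem exists_idx {β : Type} [Primcodable β] {M : β → Str}
    (hM : ComputablePred fun q : β × ℕ × ℕ × ℕ => M q.1 q.2.1 q.2.2.1 q.2.2.2) :
    ∃ g : β → ℕ, Computable g ∧ ∀ b, IndexOf (g b) (toS (M b)) := by
  classical
  have hD : ComputablePred fun p : β × ℕ => Diag (toS (M p.1)) p.2 := by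
    have hl : Computable fun p : β × ℕ => ofNat (List ℕ) p.2.unpair.2 :=
      (Computable.ofNat (List ℕ)).comp (c_up2 (c_snd c_id))
    refine (p_and (p_eq (Computable.list_length.comp hl) (c_const 2))
      (computablePred_comp hM (c_pair (c_fst c_id) (c_pair (c_up1 (c_snd c_id))
        (c_pair (c_gt hl (c_const 0)) (c_gt hl (c_const 1))))))).of_eq fun p => ?_
    exact (diag_iff (M p.1) p.2).symm
  have hf : Computable fun p : β × ℕ => if Diag (toS (M p.1)) p.2 then 1 else 0 :=
    c_ite hD (c_const 1) (c_const 0)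
  obtain ⟨c, hc⟩ := Code.exists_code.1 hf.partrec
  refine ⟨fun b => encode (Code.curry c (encode b)), ?_, fun b x => ?_⟩
  · exact Computable.encode.comp ((Code.primrec₂_curry.to_comp).comp (c_const c)
      Computable.encode)
  · have h1 : Code.eval (ofNat Code (encode (Code.curry c (encode b)))) x =
        Part.some (if Diag (toS (M b)) x then 1 else 0) := by
      rw [ofNat_encode, Code.eval_curry, hc]
      have : decode (α := β × ℕ) (Nat.pair (encode b) x) = some (b, x) := by
        have h2 : Nat.pair (encode b) x = encode (b, x) := rfl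
        rw [h2, encodek]
      simp [this]
    rw [h1]
    constructor
    · intro h; rw [if_pos h]
    · intro h; rw [if_neg h]

/-- the structure given by an index -/
def SI (e : ℕ) : Str := fun i x y =>
  Code.eval (ofNat Code e) (Nat.pair i (encode [x, y])) = Part.some 1

def Idx (e : ℕ) : Prop := ∀ x, (Code.eval (ofNat Code e) x = Part.some 1 ∨
  Code.eval (ofNat Code e) x = Part.some 0) ∧
  (Code.eval (ofNat Code e) x = Part.some 1 → (ofNat (List ℕ) x.unpair.2).length = 2)

theorem some_ne : (Part.some 1 : Part ℕ) ≠ Part.some 0 := by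
  intro h
  exact absurd (Part.some_inj.1 h) (by decide)

theorem idx_of {e : ℕ} (h : Idx e) : IndexOf e (toS (SI e)) := by
  intro x
  have key : Diag (toS (SI e)) x ↔ Code.eval (ofNat Code e) x = Part.some 1 := by
    rw [diag_iff]
    unfold SI
    have h2 : (ofNat (List ℕ) x.unpair.2).length = 2 →
        Nat.pair x.unpair.1 (encode [gt (ofNat (List ℕ) x.unpair.2) 0,
          gt (ofNat (List ℕ) x.unpair.2) 1]) = x := by
      intro hl
      obtain ⟨a, b, hab⟩ := List.length_eq_two.1 hl
      have h3 : [gt (ofNat (List ℕ) x.unpair.2) 0, gt (ofNat (List ℕ) x.unpair.2) 1] =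
          ofNat (List ℕ) x.unpair.2 := by
        rw [hab]; rfl
      rw [h3, encode_ofNat, Nat.pair_unpair]
    constructor
    · rintro ⟨h3, h4⟩
      rwa [h2 h3] at h4
    · intro h3
      have h4 := (h x).2 h3
      exact ⟨h4, by rw [h2 h4]; exact h3⟩
  rw [key]
  refine ⟨fun h1 => h1, fun h1 => ?_⟩
  rcases (h x).1 with h2 | h2
  · exact (h1 h2).elim
  · exact h2

theorem eq_of_index {e : ℕ} {A : Struct ar2} (h : IndexOf e A) :
    Idx e ∧ A = toS (SI e) := by
  classical
  have hA : A = toS (frS A) := (toS_frS A).symm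
  constructor
  · intro x
    by_cases hx : Diag A x
    · have h1 := (h x).1 hx
      refine ⟨Or.inl h1, fun _ => ?_⟩
      rw [hA] at hx
      exact ((diag_iff _ x).1 hx).1
    · have h1 := (h x).2 hx
      exact ⟨Or.inr h1, fun h2 => (some_ne (h2.symm.trans h1)).elim⟩
  · have key : ∀ i x y, frS A i x y ↔ SI e i x y := by
      intro i x y
      have h1 := h (Nat.pair i (encode [x, y]))
      have h2 : Diag A (Nat.pair i (encode [x, y])) ↔ frS A i x y := by
        conv_lhs => rw [hA]
        rw [diag_iff, Nat.unpair_pair, ofNat_encode]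
        simp [gt]
      rw [h2] at h1
      constructor
      · intro h3
        exact h1.1 h3
      · intro h3
        by_contra hc
        exact some_ne (h3.symm.trans (h1.2 hc))
    have h3 : frS A = SI e := by
      funext i x y
      exact propext (key i x y)
    rw [← h3, toS_frS]

theorem delta_Idx : Delta11 Idx := by
  have h1 : Delta11 fun p : ℕ × ℕ => Code.eval (ofNat Code p.1) p.2 = Part.some 1 :=
    delta_eval (c_fst c_id) (c_snd c_id) (c_const 1)
  have h0 : Delta11 fun p : ℕ × ℕ => Code.eval (ofNat Code p.1) p.2 = Part.some 0 :=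
    delta_eval (c_fst c_id) (c_snd c_id) (c_const 0)
  have hl : Delta11 fun p : ℕ × ℕ => (ofNat (List ℕ) p.2.unpair.2).length = 2 :=
    Delta11.of_computable (p_eq (Computable.list_length.comp
      ((Computable.ofNat (List ℕ)).comp (c_up2 (c_snd c_id)))) (c_const 2))
  exact Delta11.all ((h1.or h0).and (h1.imp hl))

/-- computable structures have computable relations -/
theorem comp_SI {e : ℕ} (h : Idx e) : IsComp (SI e) := by
  classical
  have h1 : ∀ x, ∃ y, Code.eval (ofNat Code e) x = Part.some y := by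
    intro x
    rcases (h x).1 with h2 | h2
    · exact ⟨1, h2⟩
    · exact ⟨0, h2⟩
  choose v hv using h1
  have hc : Computable v := by
    have h2 : Partrec fun x : ℕ => Code.eval (ofNat Code e) x :=
      Code.eval_part.comp (Computable.const _) Computable.id
    exact h2.of_eq fun x => by rw [hv x]; rfl
  have h3 : Computable fun q : ℕ × ℕ × ℕ => Nat.pair q.1 (encode [q.2.1, q.2.2]) :=
    c_npair (c_fst c_id) (Computable.encode.comp (Computable.list_cons.comp
      (c_fst (c_snd c_id)) (Computable.list_cons.comp (c_snd (c_snd c_id)) (c_const []))))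
  refine (p_eq (hc.comp h3) (c_const 1)).of_eq fun q => ?_
  show v _ = 1 ↔ Code.eval (ofNat Code e) _ = Part.some 1
  rw [hv]
  exact Part.some_inj.symm

end Pool.Agent.Helper941.Hyp
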