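import Mathlib
import Pool.Agent.KS6_49.L8.Helper941.Hyp.Ind

set_option autoImplicit false
set_option maxHeartbeats 400000

namespace Pool.Agent.Helper941.Hyp

open Encodable Denumerable Nat.Partrec Pool.Agent.Helper941 Pool.Agent.Helper941.IsoProb
open Pool.Agent.Helper941.Zeta Pool.Agent.Helper941.Dim

/-- the structure with the additional unary predicate `P` -/
def MS (P : ℕ → Prop) : Str := fun i x y =>
  (i = 0 ∧ x = y ∧ P (el pH x)) ∨ (i ≠ 0 ∧ Rel pH false i (el pH x) (el pH y))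

theorem ms_zero {P : ℕ → Prop} {x y : ℕ} : MS P 0 x y ↔ x = y ∧ P (el pH x) := by
  unfold MS; simp

theorem ms_ne {P : ℕ → Prop} {i x y : ℕ} (hi : i ≠ 0) :
    MS P i x y ↔ Rel pH false i (el pH x) (el pH y) := by
  unfold MS; simp [hi]

theorem ms_comp {β : Type} [Primcodable β] {P : β → ℕ → Prop}
    (hP : ComputablePred fun q : β × ℕ => P q.1 q.2) :
    ComputablePred fun q : β × ℕ × ℕ × ℕ => MS (P q.1) q.2.1 q.2.2.1 q.2.2.2 := by
  have hi : Computable fun q : β × ℕ × ℕ × ℕ => q.2.1 := c_fst (c_snd c_id)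
  have hx : Computable fun q : β × ℕ × ℕ × ℕ => q.2.2.1 := c_fst (c_snd (c_snd c_id))
  have hy : Computable fun q : β × ℕ × ℕ × ℕ => q.2.2.2 := c_snd (c_snd (c_snd c_id))
  have hel : Computable (el pH) := c_el c_pH
  have h1 : ComputablePred fun q : β × ℕ × ℕ × ℕ => P q.1 (el pH q.2.2.1) :=
    computablePred_comp hP (c_pair (c_fst c_id) (hel.comp hx))
  have h2 : ComputablePred fun q : β × ℕ × ℕ × ℕ =>
      Rel pH false q.2.1 (el pH q.2.2.1) (el pH q.2.2.2) :=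
    computablePred_comp (P := fun q : ℕ × ℕ × ℕ => Rel pH false q.1 q.2.1 q.2.2)
      (p_rel c_pH false) (c_pair hi (c_pair (hel.comp hx) (hel.comp hy)))
  unfold MS
  exact p_or (p_and (p_eq hi (c_const 0)) (p_and (p_eq hx hy) h1))
    (p_and (p_not (p_eq hi (c_const 0))) h2)

/-- isomorphisms are given by flows -/
theorem ms_iso {P Q : ℕ → Prop} : (∃ f : ℕ ≃ ℕ, ∀ i x y, MS P i x y ↔ MS Q i (f x) (f y)) ↔
    ∃ t, Flow pH t ∧ ∀ p, Valid pH p → (P p ↔ Q (sh t p)) := by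
  constructor
  · rintro ⟨f, hf⟩
    have h1 : RedIso pH (As pH false) f := by
      intro i x y hi
      have := hf i x y
      rw [ms_ne hi, ms_ne hi] at this
      exact this
    obtain ⟨t, hF, ht⟩ := aut_shift h1
    refine ⟨t, hF, fun p hp => ?_⟩
    have := hf 0 (idx pH p) (idx pH p)
    rw [ms_zero, ms_zero, ht, el_idx hp] at this
    simpa using this
  · rintro ⟨t, hF, ht⟩
    have h0 : PIso pH (As pH false) (idx pH) := by
      refine ⟨fun i p q _ hp hq => ?_, fun p q hp hq h => ?_, fun z => ?_⟩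
      · show _ ↔ Rel pH false i (el pH (idx pH p)) (el pH (idx pH q))
        rw [el_idx hp, el_idx hq]
      · rw [← el_idx hp, h, el_idx hq]
      · exact ⟨el pH z, el_valid _ z, idx_el _ z⟩
    obtain ⟨f, h1, h2⟩ := (h0.shift hF).toIso
    have h3 : ∀ x, el pH (f x) = sh t (el pH x) := by
      intro x
      rw [h2, el_idx (sh_valid hF (el_valid _ x))]
    refine ⟨f, fun i x y => ?_⟩
    by_cases hi : i = 0
    · subst hi
      rw [ms_zero, ms_zero, f.injective.eq_iff, h3, ht _ (el_valid _ x)]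
    · rw [ms_ne hi, ms_ne hi]
      exact h1 i x y hi

/-- the parity predicates -/
def PP (u : ℕ) (b : Bool) (p : ℕ) : Prop := p.unpair.1 = u ∧ par p.unpair.2 = b

theorem pp_sh {u : ℕ} {b : Bool} {t : ℕ → ℕ} {p : ℕ} :
    PP u b (sh t p) ↔ PP u (b ^^ par (t u)) p := by
  unfold PP
  rw [sh_fst, sh_snd, par_xor]
  refine and_congr_right fun h => ?_
  rw [h]
  cases par p.unpair.2 <;> cases par (t u) <;> cases b <;> simp

def Y (u : ℕ) : Prop := ∃ t, Flow pH t ∧ par (t u) = true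

theorem pp_iso (u : ℕ) : (∃ f : ℕ ≃ ℕ, ∀ i x y, MS (PP u false) i x y ↔
    MS (PP u true) i (f x) (f y)) ↔ Y u := by
  rw [ms_iso]
  constructor
  · rintro ⟨t, hF, ht⟩
    refine ⟨t, hF, ?_⟩
    have h1 := (ht (Nat.pair u 0) (valid_base _ u)).1 (by
      unfold PP; rw [Nat.unpair_pair]; exact ⟨rfl, rfl⟩)
    rw [pp_sh] at h1
    unfold PP at h1
    rw [Nat.unpair_pair] at h1
    have h2 : par 0 = (true ^^ par (t u)) := h1.2
    rw [par_zero] at h2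
    cases hp : par (t u)
    · rw [hp] at h2; simp at h2
    · rfl
  · rintro ⟨t, hF, ht⟩
    refine ⟨t, hF, fun p _ => ?_⟩
    rw [pp_sh, ht]
    rfl

theorem y_iso {u : ℕ} (h : Y u) (b : Bool) : Iso (toS (MS (PP u b))) (toS (MS (PP u (!b)))) := by
  have h1 := iso_toS.2 ((pp_iso u).2 h)
  cases b with
  | false => exact h1
  | true => exact h1.symm

/-- `e` is an index of a structure isomorphic to `MS (PP u b)` by a computable map -/
def Cls (u : ℕ) (b : Bool) (e : ℕ) : Prop := Idx e ∧ (∀ x y, SI e 0 x y → x = y) ∧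
  ∃ h : ℕ ≃ ℕ, Computable h ∧ RedIso pH (SI e) h ∧
    ∀ x, (PP u b (el pH x) ↔ SI e 0 (h x) (h x))

theorem Cls.iso {u : ℕ} {b : Bool} {e : ℕ} (h : Cls u b e) :
    Iso (toS (MS (PP u b))) (toS (SI e)) := by
  obtain ⟨_, h1, f, _, h2, h3⟩ := h
  rw [iso_toS]
  refine ⟨f, fun i x y => ?_⟩
  by_cases hi : i = 0
  · subst hi
    rw [ms_zero]
    constructor
    · rintro ⟨rfl, h4⟩
      exact (h3 x).1 h4
    · intro h4
      have h5 := f.injective (h1 _ _ h4)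
      subst h5
      exact ⟨rfl, (h3 x).2 h4⟩
  · rw [ms_ne hi]
    exact h2 i x y hi

theorem cls_of_iso {u : ℕ} {b : Bool} {e : ℕ} (he : Idx e)
    (h : Iso (toS (MS (PP u b))) (toS (SI e))) :
    Cls u b e ∨ (Y u ∧ Cls u (!b) e) := by
  obtain ⟨f, hf⟩ := iso_toS.1 h
  have h0 : RedIso pH (SI e) f := by
    intro i x y hi
    have := hf i x y
    rw [ms_ne hi] at this
    exact this
  obtain ⟨k, hk, hkc⟩ : ∃ k : ℕ ≃ ℕ, RedIso pH (SI e) k ∧ Computable k :=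
    cc p_HT c_prn th_HT (comp_SI he) h0
  have hz : ∀ x y, SI e 0 x y → x = y := by
    intro x y hxy
    have := (hf 0 (f.symm x) (f.symm y)).2 (by simpa using hxy)
    rw [ms_zero] at this
    exact f.symm.injective this.1
  have ha : RedIso pH (As pH false) (k.trans f.symm) := by
    intro i x y hi
    rw [hk i x y hi]
    have := hf i (f.symm (k x)) (f.symm (k y))
    rw [ms_ne hi] at this
    simp only [Equiv.apply_symm_apply] at this
    exact this.symm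
  obtain ⟨t, hF, ht⟩ := aut_shift ha
  have hp : ∀ x, PP u (b ^^ par (t u)) (el pH x) ↔ SI e 0 (k x) (k x) := by
    intro x
    rw [← pp_sh, ← ht x]
    have := hf 0 (f.symm (k x)) (f.symm (k x))
    rw [ms_zero] at this
    simp only [Equiv.apply_symm_apply, true_and] at this
    exact this
  cases hpar : par (t u)
  · left
    rw [hpar, Bool.xor_false] at hp
    exact ⟨he, hz, k, hkc, hk, hp⟩
  · right
    rw [hpar, Bool.xor_true] at hp
    exact ⟨⟨t, hF, hpar⟩, he, hz, k, hkc, hk, hp⟩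

theorem cls_iff {u : ℕ} {b : Bool} {e : ℕ} : (Idx e ∧
    Iso (toS (MS (PP u b))) (toS (SI e))) ↔ Cls u b e ∨ (Y u ∧ Cls u (!b) e) := by
  constructor
  · rintro ⟨h1, h2⟩
    exact cls_of_iso h1 h2
  · rintro (h | ⟨h1, h2⟩)
    · exact ⟨h.1, h.iso⟩
    · exact ⟨h2.1, (y_iso h1 b).trans h2.iso⟩

/-! ### the complexity of `Cls` -/

def EvE (k x y : ℕ) : Prop := Code.eval (ofNat Code k) x = Part.some y

theorem delta_EvE {α : Type} [Primcodable α] {k x y : α → ℕ} (hk : Computable k)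
    (hx : Computable x) (hy : Computable y) : Delta11 fun a => EvE (k a) (x a) (y a) :=
  delta_eval hk hx hy

theorem delta_SI {α : Type} [Primcodable α] {e i x y : α → ℕ} (he : Computable e)
    (hi : Computable i) (hx : Computable x) (hy : Computable y) :
    Delta11 fun a => SI (e a) (i a) (x a) (y a) := by
  refine delta_eval he (c_npair hi ?_) (c_const 1)
  exact Computable.encode.comp (Computable.list_cons.comp hx
    (Computable.list_cons.comp hy (c_const [])))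

def ClsP (u : ℕ) (b : Bool) (e k : ℕ) : Prop :=
  (∀ x, ∃ y, EvE k x y) ∧ (∀ y, ∃ x, EvE k x y) ∧
  (∀ q : ℕ × ℕ × ℕ, EvE k q.1 q.2.2 → EvE k q.2.1 q.2.2 → q.1 = q.2.1) ∧
  (∀ q : ℕ × ℕ × ℕ × ℕ × ℕ, EvE k q.2.1 q.2.2.2.1 → EvE k q.2.2.1 q.2.2.2.2 → q.1 ≠ 0 →
    (Rel pH false q.1 (el pH q.2.1) (el pH q.2.2.1) ↔ SI e q.1 q.2.2.2.1 q.2.2.2.2)) ∧
  ∀ q : ℕ × ℕ, EvE k q.1 q.2 → (PP u b (el pH q.1) ↔ SI e 0 q.2 q.2)

theorem cls_iff' {u : ℕ} {b : Bool} {e : ℕ} : Cls u b e ↔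
    Idx e ∧ (∀ q : ℕ × ℕ, SI e 0 q.1 q.2 → q.1 = q.2) ∧ ∃ k, ClsP u b e k := by
  constructor
  · rintro ⟨h1, h2, f, hfc, h3, h4⟩
    obtain ⟨c, hc⟩ := Code.exists_code.1 (Partrec.nat_iff.1 hfc.partrec)
    have hev : ∀ x y, EvE (encode c) x y ↔ f x = y := by
      intro x y
      unfold EvE
      rw [ofNat_encode, hc]
      exact Part.some_inj
    refine ⟨h1, fun q => h2 q.1 q.2, encode c, fun x => ⟨f x, (hev _ _).2 rfl⟩,
      fun y => ⟨f.symm y, (hev _ _).2 (by simp)⟩, fun q hq1 hq2 => ?_,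
      fun q hq1 hq2 hq3 => ?_, fun q hq => ?_⟩
    · rw [hev] at hq1 hq2
      exact f.injective (hq1.trans hq2.symm)
    · rw [hev] at hq1 hq2
      rw [← hq1, ← hq2]
      exact h3 _ _ _ hq3
    · rw [hev] at hq
      rw [← hq]
      exact h4 _
  · rintro ⟨h1, h2, k, h3, h4, h5, h6, h7⟩
    choose f hf using h3
    have hbij : Function.Bijective f := by
      constructor
      · intro x y hxy
        refine h5 (x, y, f x) (hf x) ?_
        show EvE k y (f x)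
        rw [hxy]
        exact hf y
      · intro y
        obtain ⟨x, hx⟩ := h4 y
        refine ⟨x, ?_⟩
        exact Part.some_inj.1 ((hf x).symm.trans hx)
    refine ⟨h1, fun x y => h2 (x, y), Equiv.ofBijective f hbij, ?_, fun i x y hi => ?_,
      fun x => ?_⟩
    · have h8 : Partrec fun x : ℕ => Code.eval (ofNat Code k) x :=
        Code.eval_part.comp (Computable.const _) Computable.id
      exact h8.of_eq fun x => hf x
    · exact h6 (i, x, y, f x, f y) (hf x) (hf y) hi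
    · exact h7 (x, f x) (hf x)

theorem delta_Cls : Delta11 fun p : ℕ × ℕ × Bool => Cls p.2.1 p.2.2 p.1 := by
  have hel : Computable (el pH) := c_el c_pH
  have h1 : Delta11 fun p : ℕ × ℕ × Bool => Idx p.1 := delta_Idx.comp (c_fst c_id)
  have h2 : Delta11 fun p : ℕ × ℕ × Bool => ∀ q : ℕ × ℕ, SI p.1 0 q.1 q.2 → q.1 = q.2 := by
    refine Delta11.all' (P := fun r : (ℕ × ℕ × Bool) × ℕ × ℕ =>
      SI r.1.1 0 r.2.1 r.2.2 → r.2.1 = r.2.2) ?_
    exact (delta_SI (c_fst (c_fst c_id)) (c_const 0) (c_fst (c_snd c_id))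
      (c_snd (c_snd c_id))).imp (Delta11.of_computable (p_eq (c_fst (c_snd c_id))
        (c_snd (c_snd c_id))))
  have h3 : Delta11 fun r : (ℕ × ℕ × Bool) × ℕ => ∀ x, ∃ y, EvE r.2 x y :=
    Delta11.all (P := fun s : ((ℕ × ℕ × Bool) × ℕ) × ℕ => ∃ y, EvE s.1.2 s.2 y)
      (Delta11.ex (P := fun s : (((ℕ × ℕ × Bool) × ℕ) × ℕ) × ℕ => EvE s.1.1.2 s.1.2 s.2)
        (delta_EvE (c_snd (c_fst (c_fst c_id))) (c_snd (c_fst c_id)) (c_snd c_id)))
  have h4 : Delta11 fun r : (ℕ × ℕ × Bool) × ℕ => ∀ y, ∃ x, EvE r.2 x y :=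
    Delta11.all (P := fun s : ((ℕ × ℕ × Bool) × ℕ) × ℕ => ∃ x, EvE s.1.2 x s.2)
      (Delta11.ex (P := fun s : (((ℕ × ℕ × Bool) × ℕ) × ℕ) × ℕ => EvE s.1.1.2 s.2 s.1.2)
        (delta_EvE (c_snd (c_fst (c_fst c_id))) (c_snd c_id) (c_snd (c_fst c_id))))
  have h5 : Delta11 fun r : (ℕ × ℕ × Bool) × ℕ => ∀ q : ℕ × ℕ × ℕ,
      EvE r.2 q.1 q.2.2 → EvE r.2 q.2.1 q.2.2 → q.1 = q.2.1 := by
    refine Delta11.all' (P := fun s : ((ℕ × ℕ × Bool) × ℕ) × ℕ × ℕ × ℕ =>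
      EvE s.1.2 s.2.1 s.2.2.2 → EvE s.1.2 s.2.2.1 s.2.2.2 → s.2.1 = s.2.2.1) ?_
    have hk : Computable fun s : ((ℕ × ℕ × Bool) × ℕ) × ℕ × ℕ × ℕ => s.1.2 :=
      c_snd (c_fst c_id)
    have ha : Computable fun s : ((ℕ × ℕ × Bool) × ℕ) × ℕ × ℕ × ℕ => s.2.1 :=
      c_fst (c_snd c_id)
    have hb : Computable fun s : ((ℕ × ℕ × Bool) × ℕ) × ℕ × ℕ × ℕ => s.2.2.1 :=
      c_fst (c_snd (c_snd c_id))
    have hc : Computable fun s : ((ℕ × ℕ × Bool) × ℕ) × ℕ × ℕ × ℕ => s.2.2.2 :=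
      c_snd (c_snd (c_snd c_id))
    exact (delta_EvE hk ha hc).imp ((delta_EvE hk hb hc).imp
      (Delta11.of_computable (p_eq ha hb)))
  have h6 : Delta11 fun r : (ℕ × ℕ × Bool) × ℕ => ∀ q : ℕ × ℕ × ℕ × ℕ × ℕ,
      EvE r.2 q.2.1 q.2.2.2.1 → EvE r.2 q.2.2.1 q.2.2.2.2 → q.1 ≠ 0 →
      (Rel pH false q.1 (el pH q.2.1) (el pH q.2.2.1) ↔
        SI r.1.1 q.1 q.2.2.2.1 q.2.2.2.2) := by
    refine Delta11.all' (P := fun s : ((ℕ × ℕ × Bool) × ℕ) × ℕ × ℕ × ℕ × ℕ × ℕ =>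
      EvE s.1.2 s.2.2.1 s.2.2.2.2.1 → EvE s.1.2 s.2.2.2.1 s.2.2.2.2.2 → s.2.1 ≠ 0 →
      (Rel pH false s.2.1 (el pH s.2.2.1) (el pH s.2.2.2.1) ↔
        SI s.1.1.1 s.2.1 s.2.2.2.2.1 s.2.2.2.2.2)) ?_
    have hk : Computable fun s : ((ℕ × ℕ × Bool) × ℕ) × ℕ × ℕ × ℕ × ℕ × ℕ => s.1.2 :=
      c_snd (c_fst c_id)
    have he : Computable fun s : ((ℕ × ℕ × Bool) × ℕ) × ℕ × ℕ × ℕ × ℕ × ℕ => s.1.1.1 :=
      c_fst (c_fst (c_fst c_id))
    have hi : Computable fun s : ((ℕ × ℕ × Bool) × ℕ) × ℕ × ℕ × ℕ × ℕ × ℕ => s.2.1 :=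
      c_fst (c_snd c_id)
    have hx : Computable fun s : ((ℕ × ℕ × Bool) × ℕ) × ℕ × ℕ × ℕ × ℕ × ℕ => s.2.2.1 :=
      c_fst (c_snd (c_snd c_id))
    have hy : Computable fun s : ((ℕ × ℕ × Bool) × ℕ) × ℕ × ℕ × ℕ × ℕ × ℕ => s.2.2.2.1 :=
      c_fst (c_snd (c_snd (c_snd c_id)))
    have hx' : Computable fun s : ((ℕ × ℕ × Bool) × ℕ) × ℕ × ℕ × ℕ × ℕ × ℕ =>
        s.2.2.2.2.1 := c_fst (c_snd (c_snd (c_snd (c_snd c_id))))
    have hy' : Computable fun s : ((ℕ × ℕ × Bool) × ℕ) × ℕ × ℕ × ℕ × ℕ × ℕ =>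
        s.2.2.2.2.2 := c_snd (c_snd (c_snd (c_snd (c_snd c_id))))
    have hR : ComputablePred fun s : ((ℕ × ℕ × Bool) × ℕ) × ℕ × ℕ × ℕ × ℕ × ℕ =>
        Rel pH false s.2.1 (el pH s.2.2.1) (el pH s.2.2.2.1) :=
      computablePred_comp (P := fun q : ℕ × ℕ × ℕ => Rel pH false q.1 q.2.1 q.2.2)
        (p_rel c_pH false) (c_pair hi (c_pair (hel.comp hx) (hel.comp hy)))
    exact (delta_EvE hk hx hx').imp ((delta_EvE hk hy hy').imp
      ((Delta11.of_computable (p_not (p_eq hi (c_const 0)))).imp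
        ((Delta11.of_computable hR).iff (delta_SI he hi hx' hy'))))
  have h7 : Delta11 fun r : (ℕ × ℕ × Bool) × ℕ => ∀ q : ℕ × ℕ,
      EvE r.2 q.1 q.2 → (PP r.1.2.1 r.1.2.2 (el pH q.1) ↔ SI r.1.1 0 q.2 q.2) := by
    refine Delta11.all' (P := fun s : ((ℕ × ℕ × Bool) × ℕ) × ℕ × ℕ =>
      EvE s.1.2 s.2.1 s.2.2 → (PP s.1.1.2.1 s.1.1.2.2 (el pH s.2.1) ↔
        SI s.1.1.1 0 s.2.2 s.2.2)) ?_
    have hk : Computable fun s : ((ℕ × ℕ × Bool) × ℕ) × ℕ × ℕ => s.1.2 :=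
      c_snd (c_fst c_id)
    have he : Computable fun s : ((ℕ × ℕ × Bool) × ℕ) × ℕ × ℕ => s.1.1.1 :=
      c_fst (c_fst (c_fst c_id))
    have hu : Computable fun s : ((ℕ × ℕ × Bool) × ℕ) × ℕ × ℕ => s.1.1.2.1 :=
      c_fst (c_snd (c_fst (c_fst c_id)))
    have hb : Computable fun s : ((ℕ × ℕ × Bool) × ℕ) × ℕ × ℕ => s.1.1.2.2 :=
      c_snd (c_snd (c_fst (c_fst c_id)))
    have hx : Computable fun s : ((ℕ × ℕ × Bool) × ℕ) × ℕ × ℕ => s.2.1 :=
      c_fst (c_snd c_id)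
    have hx' : Computable fun s : ((ℕ × ℕ × Bool) × ℕ) × ℕ × ℕ => s.2.2 :=
      c_snd (c_snd c_id)
    have hP : ComputablePred fun s : ((ℕ × ℕ × Bool) × ℕ) × ℕ × ℕ =>
        PP s.1.1.2.1 s.1.1.2.2 (el pH s.2.1) :=
      p_and (p_eq (c_up1 (hel.comp hx)) hu) (p_eqb (c_par (c_up2 (hel.comp hx))) hb)
    exact (delta_EvE hk hx hx').imp ((Delta11.of_computable hP).iff
      (delta_SI he (c_const 0) hx' hx'))
  have h8 : Delta11 fun r : (ℕ × ℕ × Bool) × ℕ => ClsP r.1.2.1 r.1.2.2 r.1.1 r.2 :=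
    h3.and (h4.and (h5.and (h6.and h7)))
  have h9 : Delta11 fun p : ℕ × ℕ × Bool => ∃ k, ClsP p.2.1 p.2.2 p.1 k :=
    Delta11.ex (P := fun r : (ℕ × ℕ × Bool) × ℕ => ClsP r.1.2.1 r.1.2.2 r.1.1 r.2) h8
  exact (h1.and (h2.and h9)).of_iff fun p => cls_iff'

end Pool.Agent.Helper941.Hyp
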